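import Pool.Agent.Lib.MP_defcf3_al.BR.H50.KeyC

/-! KEY: the key proposition. -/

namespace BR7.H50

universe u

open BR7

theorem range7 {M : Type*} [CommMonoid M] (f : ZMod 7 → M) (g : ℕ → M) (h : ∀ i : Fin 7, g i = f (i : ℕ)) :
    ∏ i ∈ Finset.range 7, g i = ∏ j, f j := by
  rw [Finset.prod_range]
  refine Fintype.prod_congr _ _ (fun i => ?_)
  rw [h i]
  congr 1
  fin_cases i <;> rfl

theorem key (hL : LineStatement.{u}) (hM : MatchStatement.{u}) (hR : RiccatiStatement.{u})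
    (hN : NormMStatement.{u}) : KeyStatement.{u} := by
  intro F Ω _ _ _ _ _ ζ γ Q _ sym Γ hS r q w c hw hc hc2 hc3
  have hprim := hS.prim
  have hact : γ • ζ = ζ ^ 3 := hS.act
  have hz7 := pow7 hprim
  have hsum := sum_zero hprim
  have hact' : γ (ζ : Ω) = (ζ : Ω) ^ 3 := by
    have := congrArg Units.val hact
    rwa [smul_coe, Units.val_pow_eq_pow_val] at this
  set z : Ω := (ζ : Ω) with hz
  set R := algebraMap F Ω r with hRdef
  set P := algebraMap F Ω q with hPdef
  have hw0 : (w : Ω) = lineX (z + z ^ 6) R P := by rw [hw, inv6 hprim]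
  have gg : ∀ a b : ℕ, γ (lineX (z ^ a + z ^ b) R P) = lineX (z ^ (3 * a) + z ^ (3 * b)) R P := by
    intro a b
    rw [map_lineX, map_add, map_pow, map_pow, hact', ← pow_mul, ← pow_mul]
  set w1 : Ωˣ := γ ^ 2 • w with hw1
  set w2 : Ωˣ := γ ^ 4 • w with hw2
  have e1 : ((γ • w : Ωˣ) : Ω) = lineX (z ^ 4 + z ^ 3) R P := by
    rw [smul_coe, hw0, show z + z ^ 6 = z ^ 1 + z ^ 6 by ring, gg, pow_red hz7 (3 * 6) 4 rfl]
    rw [add_comm]
  have e2 : (w1 : Ω) = lineX (z ^ 2 + z ^ 5) R P := by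
    rw [hw1, pow_two, mul_smul, smul_coe, e1, gg, pow_red hz7 (3 * 4) 5 rfl, pow_red hz7 (3 * 3) 2 rfl,
      add_comm]
  have e3 : ((γ ^ 3 • w : Ωˣ) : Ω) = lineX (z + z ^ 6) R P := by
    rw [pow_succ' γ 2, mul_smul, ← hw1, smul_coe, e2, gg, pow_red hz7 (3 * 5) 1 rfl, add_comm, pow_one]
  have e3' : γ ^ 3 • w = w := Units.ext (e3.trans hw0.symm)
  have g0 : γ • w = w2 := by
    rw [hw2, pow_succ γ 3, mul_smul]
    have : γ ^ 3 • γ • w = γ • γ ^ 3 • w := by
      rw [← mul_smul, ← mul_smul, ← pow_succ, ← pow_succ']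
    rw [this, e3']
  have e4 : (w2 : Ω) = lineX (z ^ 4 + z ^ 3) R P := by rw [← g0, e1]
  have g1 : γ • w1 = w := by
    rw [hw1, ← mul_smul, ← pow_succ', e3']
  have g2 : γ • w2 = w1 := by
    rw [← g0, hw1, ← mul_smul, ← pow_two]
  have hfix : ∀ (τ : Ω ≃ₐ[F] Ω), τ • ζ = ζ → ∀ a b : ℕ,
      τ (lineX (z ^ a + z ^ b) R P) = lineX (z ^ a + z ^ b) R P := by
    intro τ hτ a b
    have : τ z = z := congrArg Units.val hτ
    rw [map_lineX, map_add, map_pow, map_pow, this]
  have hwL : InL F ζ w := fun τ hτ => Units.ext (by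
    rw [smul_coe, hw0, show z + z ^ 6 = z ^ 1 + z ^ 6 by ring, hfix τ hτ])
  have hw1L : InL F ζ w1 := fun τ hτ => Units.ext (by rw [smul_coe, e2, hfix τ hτ])
  have hw2L : InL F ζ w2 := fun τ hτ => Units.ext (by rw [smul_coe, e4, hfix τ hτ])
  -- action on c
  have gc : γ • c = c⁻¹ := by
    have h1 : γ ^ 3 • c = γ • c := by
      rw [pow_succ' γ 2, mul_smul, hc2]
    rw [← h1]
    exact (inv_eq_of_mul_eq_one_right hc3).symm
  apply key_fin hS hc hwL hw1L hw2L
  set b0 : Ωˣ := (w ^ 4 * w1 ^ 2 * w2)⁻¹ with hb0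
  have hb0L : InL F ζ b0 := InL_inv (InL_mul (InL_mul (InL_pow hwL 4) (InL_pow hw1L 2)) hw2L)
  -- a seventh root
  have hprimΩ : IsPrimitiveRoot z 7 := hprim.map_of_injective (f := Units.coeHom Ω) Units.val_injective
  have : NeZero ((7 : ℕ) : Ω) := hprimΩ.neZero'
  obtain ⟨θ', hθ'⟩ := IsSepClosed.exists_pow_nat_eq (b0 : Ω) 7
  have hθ'0 : θ' ≠ 0 := by
    rintro rfl
    rw [zero_pow (by norm_num)] at hθ'
    exact b0.ne_zero hθ'.symm
  set θ : Ωˣ := Units.mk0 θ' hθ'0 with hθdef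
  have hθ : θ ^ 7 = b0 := Units.ext (by
    rw [Units.val_pow_eq_pow_val]
    exact hθ')
  -- relations for every root
  have hX0 : lineX (z + z ^ 6) R P ≠ 0 := by rw [← hw0]; exact w.ne_zero
  have hX : lineX (z + z ^ 6) R P * lineX (z ^ 2 + z ^ 5) R P * lineX (z ^ 4 + z ^ 3) R P ≠ 0 := by
    rw [← hw0, ← e2, ← e4]
    exact (w * w1 * w2).ne_zero
  have hrel : ∀ η : Ωˣ, η ^ 7 = b0 → (η : Ω) ^ 7 * (lineX (z + z ^ 6) R P ^ 4 *
      lineX (z ^ 2 + z ^ 5) R P ^ 2 * lineX (z ^ 4 + z ^ 3) R P) = 1 := by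
    intro η hη
    rw [← hw0, ← e2, ← e4, ← Units.val_pow_eq_pow_val, hη, hb0]
    rw [← Units.val_pow_eq_pow_val, ← Units.val_pow_eq_pow_val, ← Units.val_mul, ← Units.val_mul,
      ← Units.val_mul, inv_mul_cancel, Units.val_one]
  by_cases hcase : ∀ g : Ω ≃ₐ[F] Ω, g • ζ = ζ → g • θ = θ
  · -- θ in L
    rw [← hθ, sym_pow_right hS hc hcase, hS.tors _ _ hc hcase]
  push Not at hcase
  obtain ⟨nn1, nn2⟩ := MZ_normM hN hprim hact r q θ hX0 hX (hrel θ hθ)
  set n : Ω := ∏ j, MZ z R P θ j with hn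
  have hmne := nn2 hcase
  have hn0 : n ≠ 0 := Finset.prod_ne_zero_iff.mpr (fun j _ => hmne j)
  set nU : Ωˣ := Units.mk0 n hn0 with hnU
  have hnF : InF F nU := fun g => Units.ext (nn1 g)
  have hnL : InL F ζ nU := fun g _ => hnF g
  -- the product is independent of the root
  have hprodη : ∀ η : Ωˣ, η ^ 7 = b0 → ∏ j, MZ z R P η j = n := by
    intro η hη
    have h1 : (η / θ) ^ 7 = 1 := by rw [div_pow, hη, hθ, div_self']
    have h1' : ((η / θ : Ωˣ) : Ω) ^ 7 = 1 := by
      rw [← Units.val_pow_eq_pow_val, h1, Units.val_one]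
    obtain ⟨e, _, he⟩ := hprimΩ.eq_pow_of_pow_eq_one h1'
    have h2 : (η : Ω) = z ^ e * (θ : Ω) := by
      rw [he, ← Units.val_mul, div_mul_cancel]
    rw [h2, hn]
    exact MM_prod_pow hz7 _ _ _ _ _ _ _ _
  have hshift : ∀ (σ : Ω ≃ₐ[F] Ω) (η : Ωˣ), σ • ζ = ζ → σ • η = ζ * η → ∀ j,
      σ (MZ z R P η j) = MZ z R P η (j + 1) := by
    intro σ η h1 h2 j
    have h1' : σ z = z := congrArg Units.val h1
    have h2' : σ (η : Ω) = z * (η : Ω) := congrArg Units.val h2
    rw [MZ_map σ h1', h2']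
    exact MM_shift hz7 _ _ _ _ _ _ _ _
  have hshiftpow : ∀ (σ : Ω ≃ₐ[F] Ω) (η : Ωˣ), σ • ζ = ζ → σ • η = ζ * η → ∀ (i : ℕ),
      (σ ^ i) (MZ z R P η 0) = MZ z R P η (i : ZMod 7) := by
    intro σ η h1 h2 i
    induction i with
    | zero => simp
    | succ i ih =>
      rw [pow_succ']
      change σ ((σ ^ i) (MZ z R P η 0)) = _
      rw [ih, hshift σ η h1 h2]
      push_cast
      rfl
  have hηne : ∀ (σ : Ω ≃ₐ[F] Ω) (η : Ωˣ), η ^ 7 = b0 → σ • ζ = ζ → σ • η = ζ * η → ∀ j,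
      MZ z R P η j ≠ 0 := by
    intro σ η hη h1 h2
    refine (MZ_normM hN hprim hact r q η hX0 hX (hrel η hη)).2 ⟨σ, h1, ?_⟩
    rw [h2]
    intro h3
    have : ζ = 1 := mul_right_cancel (h3.trans (one_mul η).symm)
    rw [this] at hprim
    have := hprim.unique IsPrimitiveRoot.one
    omega
  -- n is a norm
  have hnorm : sym nU b0 = 0 := by
    refine hS.norm _ _ hnL hb0L ?_
    intro φ η hφ hη σ s1 s2 s3
    refine ⟨Units.mk0 (MZ z R P η 0) (hηne σ η hη s1 s3 0), ?_, ?_⟩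
    · intro τ t1 _ t3
      refine Units.ext ?_
      rw [smul_coe, Units.val_mk0, MZ_map τ (congrArg Units.val t1)]
      rw [show τ (η : Ω) = η from congrArg Units.val t3]
    · refine Units.ext ?_
      rw [Units.coe_prod]
      rw [range7 (fun j => MZ z R P η j) _ (fun i => ?_)]
      · exact (hprodη η hη).symm
      · rw [smul_coe, Units.val_mk0]
        exact hshiftpow σ η s1 s3 i
  by_cases hcc : (c : Ω) + ((c⁻¹ : Ωˣ) : Ω) = 0
  · -- c is a seventh power
    have h1 : (c : Ω) * (c : Ω) = -1 := by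
      have := congrArg (fun x => (c : Ω) * x) hcc
      simp only [mul_add, mul_zero, Units.mul_inv] at this
      linear_combination this
    have h2 : (c⁻¹) ^ 7 = c := by
      rw [inv_pow, inv_eq_iff_mul_eq_one]
      refine Units.ext ?_
      push_cast
      linear_combination ((c : Ω) ^ 6 - (c : Ω) ^ 4 + (c : Ω) ^ 2 - 1) * h1
    rw [← h2, sym_pow_left hS (InL_inv hc) hb0L, hS.tors _ _ (InL_inv hc) hb0L]
  -- the main case
  set gU : Ωˣ := Units.mk0 ((c : Ω) + ((c⁻¹ : Ωˣ) : Ω)) hcc with hgU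
  set C : Ωˣ := nU ^ 4 * c with hC
  set f : Ωˣ := nU ^ 4 * gU with hf
  have hCL : InL F ζ C := InL_mul (InL_pow hnL 4) hc
  have hgc : ∀ i : ℕ, γ ^ i • c = c ∨ γ ^ i • c = c⁻¹ := by
    intro i
    induction i with
    | zero => left; simp
    | succ i ih =>
      rw [pow_succ', mul_smul]
      rcases ih with h | h
      · right; rw [h, gc]
      · left; rw [h, smul_inv', gc, inv_inv]
  have hgF : InF F gU := by
    intro g
    obtain ⟨i, hi⟩ := g_of_gamma hS hc g
    refine Units.ext ?_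
    rw [smul_coe, hgU, Units.val_mk0, map_add]
    have a1 : g (c : Ω) = ((γ ^ i • c : Ωˣ) : Ω) := by rw [← hi]; rfl
    have a2 : g ((c⁻¹ : Ωˣ) : Ω) = (((γ ^ i • c)⁻¹ : Ωˣ) : Ω) := by
      rw [← hi, ← smul_inv']; rfl
    rw [a1, a2]
    rcases hgc i with h | h
    · rw [h]
    · rw [h, inv_inv, add_comm]
  have hfF : InF F f := fun g => by rw [hf, smul_mul', smul_pow', hnF g, hgF g]
  have hfL : InL F ζ f := fun g _ => hfF g
  have hdata : NormData F ζ C b0 f := by
    intro φ η hφ hη σ s1 s2 s3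
    obtain ⟨m1, m2, m3⟩ := MZ_match hL hM hz7 hsum R P (η : Ω) hX (hrel η hη)
    have hne := hηne σ η hη s1 s3
    set μ : ZMod 7 → Ω := fun j => n * MZ z R P η j with hμ
    have hRic := hR Ω σ.toRingEquiv μ (φ : Ω) (C : Ω) ?_ ?_ ?_ C.ne_zero ?_ ?_ ?_ ?_ ?_
    · obtain ⟨x, hx1, hx2, hx3⟩ := hRic
      refine ⟨Units.mk0 x hx2, ?_, ?_⟩
      · intro τ t1 t2 t3
        refine Units.ext ?_
        rw [smul_coe, Units.val_mk0]
        have hle : Subfield.closure ({(φ : Ω), (C : Ω)} ∪ Set.range μ) ≤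
            RingHom.eqLocusField (τ.toRingEquiv : Ω →+* Ω) (RingHom.id Ω) := by
          rw [Subfield.closure_le]
          rintro y (hy | hy)
          · rcases hy with rfl | hy
            · exact congrArg Units.val t2
            · rw [Set.mem_singleton_iff] at hy
              subst hy
              exact congrArg Units.val (hCL τ t1)
          · obtain ⟨j, rfl⟩ := hy
            change τ (n * MZ z R P η j) = n * MZ z R P η j
            rw [map_mul, MZ_map τ (congrArg Units.val t1), nn1 τ,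
              show τ (η : Ω) = η from congrArg Units.val t3]
        exact hle hx1
      · refine Units.ext ?_
        rw [Units.coe_prod, hx3]
        refine Finset.prod_congr rfl (fun i _ => ?_)
        rw [smul_coe, Units.val_mk0]
        have : ∀ i : ℕ, ∀ y : Ω, (σ.toRingEquiv ^ i) y = (σ ^ i) y := by
          intro i
          induction i with
          | zero => intro y; rfl
          | succ i ih =>
            intro y
            rw [pow_succ, pow_succ]
            change (σ.toRingEquiv ^ i) (σ y) = (σ ^ i) (σ y)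
            exact ih _
        exact this i x
    · intro j
      change σ (n * MZ z R P η j) = n * MZ z R P η (j + 1)
      rw [map_mul, nn1 σ, hshift σ η s1 s3]
    · exact congrArg Units.val s2
    · exact congrArg Units.val (hCL σ s1)
    · intro j
      exact mul_ne_zero hn0 (hne j)
    · have : E1 μ = n * E1 (MZ z R P η) := by
        simp only [E1, hμ, Finset.mul_sum]
      rw [this, m1, mul_zero]
    · have : E2 μ = n ^ 2 * E2 (MZ z R P η) := by
        simp only [E2, hμ, Finset.mul_sum]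
        refine Finset.sum_congr rfl (fun j _ => ?_)
        ring
      rw [this, m2, mul_zero]
    · have : E3 μ = n ^ 3 * E3 (MZ z R P η) := by
        simp only [E3, hμ, Finset.mul_sum]
        refine Finset.sum_congr rfl (fun j _ => ?_)
        ring
      rw [this, m3, mul_zero]
    · have hp : ∏ j, μ j = n ^ 8 := by
        simp only [hμ]
        rw [Finset.prod_mul_distrib, hprodη η hη, Finset.prod_const, Finset.card_univ, ZMod.card]
        ring
      have hφ7 : (φ : Ω) ^ 7 = n ^ 4 * ((c : Ω) + ((c⁻¹ : Ωˣ) : Ω)) := by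
        rw [← Units.val_pow_eq_pow_val, hφ, hf, Units.val_mul, Units.val_pow_eq_pow_val]
        rfl
      have hCv : (C : Ω) = n ^ 4 * (c : Ω) := by
        rw [hC]
        push_cast
        rfl
      rw [hp, hφ7, hCv]
      have hcinv : ((c⁻¹ : Ωˣ) : Ω) * (c : Ω) = 1 := Units.inv_mul c
      linear_combination (n ^ 8) * hcinv
  obtain ⟨β, hβ, hsymβ⟩ := hS.kum C b0 f hCL hb0L hfL hdata
  have hfinal : sym c b0 = sym f β := by
    rw [← hsymβ, hC, hS.add_left _ _ _ (InL_pow hnL 4) hc hb0L, sym_pow_left hS hnL hb0L, hnorm]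
    simp
  exact key_gal hS hc hwL hw1L hw2L g0 g1 g2 gc hfF hβ hfinal

end BR7.H50
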