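import Pool.Agent.Lib.MP_defcf3_al.BR.Base

/-! H1: the line lies on the cubic threefold. -/

namespace BR7.H50

universe u

theorem line : BR7.LineStatement.{u} := by
  intro Ω _ t0 t1 t2 r q h h1 h2
  subst h1
  subst h2
  refine ⟨?_, ?_⟩
  · simp only [BR7.lineY]
    linear_combination ((-13)*q + 27*q*t0 + 40*q*t0^2 + (-68)*q*t0^3 + (-42)*q*t0^4 + 56*q*t0^5 + 16*q*t0^6 + (-18)*q*t0^7 +
        (-2)*q*t0^8 + 2*q*t0^9 + 2*r + (-5)*r*t0 + (-4)*r*t0^2 + 5*r*t0^3 + r*t0^4 + (-1)*r*t0^5) * h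
  · simp only [BR7.lineX, BR7.lineY]
    linear_combination ((-174)*q*r^2 + 266*q*r^2*t0 + 1471*q*r^2*t0^2 + (-2241)*q*r^2*t0^3 + (-4326)*q*r^2*t0^4 +
        6387*q*r^2*t0^5 + 6422*q*r^2*t0^6 + (-8944)*q*r^2*t0^7 + (-5351)*q*r^2*t0^8 + 6971*q*r^2*t0^9 +
        2614*q*r^2*t0^10 + (-3175)*q*r^2*t0^11 + (-740)*q*r^2*t0^12 + 839*q*r^2*t0^13 + 112*q*r^2*t0^14 +
        (-119)*q*r^2*t0^15 + (-7)*q*r^2*t0^16 + 7*q*r^2*t0^17 + 742*q^2*r + (-1463)*q^2*r*t0 +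
        (-5142)*q^2*r*t0^2 + 10073*q^2*r*t0^3 + 15770*q^2*r*t0^4 + (-29355)*q^2*r*t0^5 + (-27781)*q^2*r*t0^6
        + 47833*q^2*r*t0^7 + 30874*q^2*r*t0^8 + (-48430)*q^2*r*t0^9 + (-22485)*q^2*r*t0^10 +
        32038*q^2*r*t0^11 + 10877*q^2*r*t0^12 + (-14145)*q^2*r*t0^13 + (-3462)*q^2*r*t0^14 +
        4146*q^2*r*t0^15 + 696*q^2*r*t0^16 + (-776)*q^2*r*t0^17 + (-80)*q^2*r*t0^18 + 84*q^2*r*t0^19 +
        4*q^2*r*t0^20 + (-4)*q^2*r*t0^21 + 1000*q^3 + (-1930)*q^3*t0 + (-8891)*q^3*t0^2 + 16643*q^3*t0^3 +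
        36405*q^3*t0^4 + (-65075)*q^3*t0^5 + (-89288)*q^3*t0^6 + 150816*q^3*t0^7 + 144076*q^3*t0^8 +
        (-228312)*q^3*t0^9 + (-159341)*q^3*t0^10 + 235949*q^3*t0^11 + 122852*q^3*t0^12 + (-169844)*q^3*t0^13
        + (-66210)*q^3*t0^14 + 85640*q^3*t0^15 + 24720*q^3*t0^16 + (-30042)*q^3*t0^17 + (-6244)*q^3*t0^18 +
        7168*q^3*t0^19 + 1016*q^3*t0^20 + (-1108)*q^3*t0^21 + (-96)*q^3*t0^22 + 100*q^3*t0^23 + 4*q^3*t0^24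
        + (-4)*q^3*t0^25 + 3*r^3 + (-15)*r^3*t0 + (-53)*r^3*t0^2 + 112*r^3*t0^3 + 206*r^3*t0^4 +
        (-294)*r^3*t0^5 + (-228)*r^3*t0^6 + 287*r^3*t0^7 + 109*r^3*t0^8 + (-127)*r^3*t0^9 + (-24)*r^3*t0^10
        + 26*r^3*t0^11 + 2*r^3*t0^12 + (-2)*r^3*t0^13) * h

end BR7.H50
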