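import Pool.Agent.Lib.MP_defcf3_al.BR.Base

/-! H2: the matching sums vanish. -/

namespace BR7.H50

universe u

theorem sum7 {Ω : Type u} [Field Ω] (f : ZMod 7 → Ω) :
    ∑ j, f j = f 0 + f 1 + f 2 + f 3 + f 4 + f 5 + f 6 := Fin.sum_univ_seven f

theorem matchSums : BR7.MatchStatement.{u} := by
  intro Ω _ ζ t0 t1 t2 p0 p1 p2 hz hI hII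
  have m0 : BR7.mm ζ t0 t1 t2 p0 p1 p2 0 =
      ζ ^ 0 * t0 + ζ ^ 0 * t1 + ζ ^ 0 * t2 + ζ ^ 0 * p0 + ζ ^ 0 * p1 + ζ ^ 0 * p2 := rfl
  have m1 : BR7.mm ζ t0 t1 t2 p0 p1 p2 1 =
      ζ ^ 1 * t0 + ζ ^ 2 * t1 + ζ ^ 4 * t2 + ζ ^ 6 * p0 + ζ ^ 5 * p1 + ζ ^ 3 * p2 := rfl
  have m2 : BR7.mm ζ t0 t1 t2 p0 p1 p2 2 =
      ζ ^ 2 * t0 + ζ ^ 4 * t1 + ζ ^ 1 * t2 + ζ ^ 5 * p0 + ζ ^ 3 * p1 + ζ ^ 6 * p2 := rfl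
  have m3 : BR7.mm ζ t0 t1 t2 p0 p1 p2 3 =
      ζ ^ 3 * t0 + ζ ^ 6 * t1 + ζ ^ 5 * t2 + ζ ^ 4 * p0 + ζ ^ 1 * p1 + ζ ^ 2 * p2 := rfl
  have m4 : BR7.mm ζ t0 t1 t2 p0 p1 p2 4 =
      ζ ^ 4 * t0 + ζ ^ 1 * t1 + ζ ^ 2 * t2 + ζ ^ 3 * p0 + ζ ^ 6 * p1 + ζ ^ 5 * p2 := rfl
  have m5 : BR7.mm ζ t0 t1 t2 p0 p1 p2 5 =
      ζ ^ 5 * t0 + ζ ^ 3 * t1 + ζ ^ 6 * t2 + ζ ^ 2 * p0 + ζ ^ 4 * p1 + ζ ^ 1 * p2 := rfl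
  have m6 : BR7.mm ζ t0 t1 t2 p0 p1 p2 6 =
      ζ ^ 6 * t0 + ζ ^ 5 * t1 + ζ ^ 3 * t2 + ζ ^ 1 * p0 + ζ ^ 2 * p1 + ζ ^ 4 * p2 := rfl
  refine ⟨?_, ?_, ?_⟩
  · rw [BR7.E1, sum7, m0, m1, m2, m3, m4, m5, m6]
    linear_combination (p0 + p1 + p2 + t0 + t1 + t2) * hz
  · rw [BR7.E2, sum7]
    rw [show ((0 : ZMod 7) + 2) = 2 from rfl, show ((0 : ZMod 7) + 3) = 3 from rfl,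
      show ((1 : ZMod 7) + 2) = 3 from rfl, show ((1 : ZMod 7) + 3) = 4 from rfl,
      show ((2 : ZMod 7) + 2) = 4 from rfl, show ((2 : ZMod 7) + 3) = 5 from rfl,
      show ((3 : ZMod 7) + 2) = 5 from rfl, show ((3 : ZMod 7) + 3) = 6 from rfl,
      show ((4 : ZMod 7) + 2) = 6 from rfl, show ((4 : ZMod 7) + 3) = 0 from rfl,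
      show ((5 : ZMod 7) + 2) = 0 from rfl, show ((5 : ZMod 7) + 3) = 1 from rfl,
      show ((6 : ZMod 7) + 2) = 1 from rfl, show ((6 : ZMod 7) + 3) = 2 from rfl]
    rw [m0, m1, m2, m3, m4, m5, m6]
    linear_combination (p0*p1*ζ + p0*p1*ζ^2 + p0*p1*ζ^3 + p0*p1*ζ^6 + p0*p2*ζ + p0*p2*ζ^2 + p0*p2*ζ^4 + p0*p2*ζ^5 + 7*p0*t0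
        + (-4)*p0*t0*ζ^2 + p0*t0*ζ^3 + p0*t0*ζ^4 + p0*t0*ζ^5 + p0*t0*ζ^6 + p0*t1*ζ + p0*t1*ζ^2 + p0*t1*ζ^3 +
        p0*t1*ζ^6 + p0*t2*ζ + 2*p0*t2*ζ^2 + (-1)*p0*t2*ζ^4 + p0*t2*ζ^5 + p0*t2*ζ^6 + p0^2*ζ^2 + p0^2*ζ^4 +
        2*p1*p2*ζ + (-1)*p1*p2*ζ^3 + 3*p1*p2*ζ^4 + (-1)*p1*p2*ζ^5 + p1*p2*ζ^6 + p1*t0*ζ + p1*t0*ζ^2 +
        p1*t0*ζ^3 + p1*t0*ζ^6 + 7*p1*t1 + (-5)*p1*t1*ζ + 5*p1*t1*ζ^2 + (-3)*p1*t1*ζ^3 + p1*t1*ζ^4 +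
        2*p1*t1*ζ^5 + 2*p1*t2*ζ + (-1)*p1*t2*ζ^2 + p1*t2*ζ^3 + p1*t2*ζ^4 + p1*t2*ζ^5 + p1^2*ζ +
        (-1)*p1^2*ζ^2 + 2*p1^2*ζ^3 + (-1)*p1^2*ζ^4 + p1^2*ζ^5 + p2*t0*ζ + 2*p2*t0*ζ^2 + (-1)*p2*t0*ζ^4 +
        p2*t0*ζ^5 + p2*t0*ζ^6 + 2*p2*t1*ζ + (-1)*p2*t1*ζ^2 + p2*t1*ζ^3 + p2*t1*ζ^4 + p2*t1*ζ^5 + 7*p2*t2 +
        (-5)*p2*t2*ζ + p2*t2*ζ^2 + 4*p2*t2*ζ^3 + (-1)*p2*t2*ζ^5 + p2*t2*ζ^6 + p2^2*ζ + p2^2*ζ^5 + t0*t1*ζ +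
        t0*t1*ζ^2 + t0*t1*ζ^3 + t0*t1*ζ^6 + t0*t2*ζ + t0*t2*ζ^2 + t0*t2*ζ^4 + t0*t2*ζ^5 + t0^2*ζ^2 +
        t0^2*ζ^4 + 2*t1*t2*ζ + (-1)*t1*t2*ζ^3 + 3*t1*t2*ζ^4 + (-1)*t1*t2*ζ^5 + t1*t2*ζ^6 + t1^2*ζ +
        (-1)*t1^2*ζ^2 + 2*t1^2*ζ^3 + (-1)*t1^2*ζ^4 + t1^2*ζ^5 + t2^2*ζ + t2^2*ζ^5) * hz - 7 * hI
  · rw [BR7.E3, sum7]
    rw [show ((0 : ZMod 7) + 2) = 2 from rfl, show ((0 : ZMod 7) + 4) = 4 from rfl,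
      show ((1 : ZMod 7) + 2) = 3 from rfl, show ((1 : ZMod 7) + 4) = 5 from rfl,
      show ((2 : ZMod 7) + 2) = 4 from rfl, show ((2 : ZMod 7) + 4) = 6 from rfl,
      show ((3 : ZMod 7) + 2) = 5 from rfl, show ((3 : ZMod 7) + 4) = 0 from rfl,
      show ((4 : ZMod 7) + 2) = 6 from rfl, show ((4 : ZMod 7) + 4) = 1 from rfl,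
      show ((5 : ZMod 7) + 2) = 0 from rfl, show ((5 : ZMod 7) + 4) = 2 from rfl,
      show ((6 : ZMod 7) + 2) = 1 from rfl, show ((6 : ZMod 7) + 4) = 3 from rfl]
    rw [m0, m1, m2, m3, m4, m5, m6]
    linear_combination (7*p0*p1*p2 + (-7)*p0*p1*p2*ζ + p0*p1*p2*ζ^2 + p0*p1*p2*ζ^4 + p0*p1*p2*ζ^5 + p0*p1*p2*ζ^6 +
        3*p0*p1*p2*ζ^7 + (-1)*p0*p1*p2*ζ^8 + p0*p1*p2*ζ^10 + 2*p0*p1*t0*ζ^3 + p0*p1*t0*ζ^5 + p0*p1*t0*ζ^6 +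
        p0*p1*t0*ζ^8 + p0*p1*t0*ζ^9 + (-1)*p0*p1*t0*ζ^10 + p0*p1*t0*ζ^12 + p0*p1*t1*ζ^3 + 2*p0*p1*t1*ζ^4 +
        p0*p1*t1*ζ^6 + 2*p0*p1*t1*ζ^8 + (-2)*p0*p1*t1*ζ^9 + p0*p1*t1*ζ^10 + p0*p1*t1*ζ^11 + 2*p0*p1*t2*ζ^3 +
        (-1)*p0*p1*t2*ζ^4 + 2*p0*p1*t2*ζ^5 + p0*p1*t2*ζ^6 + p0*p1*t2*ζ^7 + (-2)*p0*p1*t2*ζ^8 +
        3*p0*p1*t2*ζ^9 + p0*p1^2*ζ^3 + (-1)*p0*p1^2*ζ^4 + 2*p0*p1^2*ζ^5 + (-1)*p0*p1^2*ζ^6 + p0*p1^2*ζ^7 +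
        p0*p1^2*ζ^8 + p0*p2*t0*ζ^3 + 3*p0*p2*t0*ζ^4 + (-2)*p0*p2*t0*ζ^6 + 2*p0*p2*t0*ζ^7 + p0*p2*t0*ζ^8 +
        p0*p2*t0*ζ^11 + p0*p2*t1*ζ^4 + 4*p0*p2*t1*ζ^5 + (-1)*p0*p2*t1*ζ^6 + p0*p2*t1*ζ^7 + (-1)*p0*p2*t1*ζ^9
        + 2*p0*p2*t1*ζ^10 + p0*p2*t2*ζ^2 + p0*p2*t2*ζ^4 + (-1)*p0*p2*t2*ζ^5 + 3*p0*p2*t2*ζ^6 + p0*p2*t2*ζ^8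
        + p0*p2*t2*ζ^9 + p0*p2^2*ζ^3 + p0*p2^2*ζ^6 + p0*p2^2*ζ^9 + 2*p0*t0*t1*ζ^3 + p0*t0*t1*ζ^5 +
        p0*t0*t1*ζ^6 + p0*t0*t1*ζ^8 + p0*t0*t1*ζ^9 + (-1)*p0*t0*t1*ζ^10 + p0*t0*t1*ζ^12 + p0*t0*t2*ζ^3 +
        3*p0*t0*t2*ζ^4 + (-2)*p0*t0*t2*ζ^6 + 2*p0*t0*t2*ζ^7 + p0*t0*t2*ζ^8 + p0*t0*t2*ζ^11 + p0*t0^2*ζ^4 +
        2*p0*t0^2*ζ^5 + (-1)*p0*t0^2*ζ^7 + (-1)*p0*t0^2*ζ^8 + p0*t0^2*ζ^9 + p0*t0^2*ζ^10 + p0*t1*t2*ζ^2 +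
        p0*t1*t2*ζ^3 + (-1)*p0*t1*t2*ζ^5 + 3*p0*t1*t2*ζ^6 + p0*t1*t2*ζ^7 + p0*t1*t2*ζ^10 +
        (-1)*p0*t1*t2*ζ^11 + p0*t1*t2*ζ^12 + p0*t1^2*ζ^4 + 2*p0*t1^2*ζ^6 + (-1)*p0*t1^2*ζ^8 + p0*t1^2*ζ^9 +
        (-1)*p0*t1^2*ζ^10 + p0*t1^2*ζ^11 + (-7)*p0*t2^2 + 7*p0*t2^2*ζ + (-5)*p0*t2^2*ζ^3 + 5*p0*t2^2*ζ^5 +
        (-2)*p0*t2^2*ζ^7 + 2*p0*t2^2*ζ^8 + (-1)*p0*t2^2*ζ^10 + p0*t2^2*ζ^11 + p0^2*p1*ζ^3 + (-1)*p0^2*p1*ζ^4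
        + p0^2*p1*ζ^5 + p0^2*p1*ζ^6 + p0^2*p1*ζ^8 + p0^2*p2*ζ^4 + p0^2*p2*ζ^6 + p0^2*p2*ζ^8 + p0^2*t0*ζ^4 +
        2*p0^2*t0*ζ^5 + (-1)*p0^2*t0*ζ^7 + (-1)*p0^2*t0*ζ^8 + p0^2*t0*ζ^9 + p0^2*t0*ζ^10 + (-7)*p0^2*t1 +
        7*p0^2*t1*ζ^2 + (-3)*p0^2*t1*ζ^6 + p0^2*t1*ζ^7 + p0^2*t1*ζ^8 + p0^2*t1*ζ^9 + p0^2*t2*ζ^3 +
        2*p0^2*t2*ζ^7 + (-1)*p0^2*t2*ζ^9 + p0^2*t2*ζ^10 + p0^3*ζ^6 + p1*p2*t0*ζ^2 + p1*p2*t0*ζ^3 +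
        (-1)*p1*p2*t0*ζ^5 + 3*p1*p2*t0*ζ^6 + p1*p2*t0*ζ^7 + p1*p2*t0*ζ^10 + (-1)*p1*p2*t0*ζ^11 +
        p1*p2*t0*ζ^12 + p1*p2*t1*ζ^2 + (-1)*p1*p2*t1*ζ^3 + 4*p1*p2*t1*ζ^4 + (-2)*p1*p2*t1*ζ^5 +
        2*p1*p2*t1*ζ^6 + 2*p1*p2*t1*ζ^9 + (-1)*p1*p2*t1*ζ^10 + p1*p2*t1*ζ^11 + 2*p1*p2*t2*ζ^2 +
        (-2)*p1*p2*t2*ζ^3 + p1*p2*t2*ζ^4 + p1*p2*t2*ζ^5 + 2*p1*p2*t2*ζ^6 + p1*p2*t2*ζ^8 + p1*p2*t2*ζ^9 +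
        p1*p2^2*ζ^2 + p1*p2^2*ζ^7 + p1*p2^2*ζ^8 + (-1)*p1*p2^2*ζ^9 + p1*p2^2*ζ^10 + p1*t0*t1*ζ^3 +
        2*p1*t0*t1*ζ^4 + p1*t0*t1*ζ^6 + 2*p1*t0*t1*ζ^8 + (-2)*p1*t0*t1*ζ^9 + p1*t0*t1*ζ^10 + p1*t0*t1*ζ^11 +
        p1*t0*t2*ζ^4 + 4*p1*t0*t2*ζ^5 + (-1)*p1*t0*t2*ζ^6 + p1*t0*t2*ζ^7 + (-1)*p1*t0*t2*ζ^9 +
        2*p1*t0*t2*ζ^10 + (-7)*p1*t0^2 + 7*p1*t0^2*ζ^2 + (-3)*p1*t0^2*ζ^6 + p1*t0^2*ζ^7 + p1*t0^2*ζ^8 +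
        p1*t0^2*ζ^9 + p1*t1*t2*ζ^2 + (-1)*p1*t1*t2*ζ^3 + 4*p1*t1*t2*ζ^4 + (-2)*p1*t1*t2*ζ^5 + 2*p1*t1*t2*ζ^6
        + 2*p1*t1*t2*ζ^9 + (-1)*p1*t1*t2*ζ^10 + p1*t1*t2*ζ^11 + 2*p1*t1^2*ζ^4 + p1*t1^2*ζ^10 + p1*t2^2*ζ^3 +
        (-1)*p1*t2^2*ζ^4 + 3*p1*t2^2*ζ^5 + (-3)*p1*t2^2*ζ^6 + 3*p1*t2^2*ζ^7 + (-1)*p1*t2^2*ζ^9 +
        p1*t2^2*ζ^10 + p1^2*p2*ζ^2 + (-1)*p1^2*p2*ζ^3 + p1^2*p2*ζ^4 + p1^2*p2*ζ^6 + p1^2*p2*ζ^9 +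
        p1^2*t0*ζ^4 + 2*p1^2*t0*ζ^6 + (-1)*p1^2*t0*ζ^8 + p1^2*t0*ζ^9 + (-1)*p1^2*t0*ζ^10 + p1^2*t0*ζ^11 +
        2*p1^2*t1*ζ^4 + p1^2*t1*ζ^10 + (-7)*p1^2*t2 + 7*p1^2*t2*ζ + (-7)*p1^2*t2*ζ^2 + 7*p1^2*t2*ζ^3 +
        (-4)*p1^2*t2*ζ^5 + 4*p1^2*t2*ζ^6 + (-2)*p1^2*t2*ζ^7 + 2*p1^2*t2*ζ^8 + p1^3*ζ^5 + (-1)*p1^3*ζ^6 +
        p1^3*ζ^7 + 2*p2*t0*t1*ζ^3 + (-1)*p2*t0*t1*ζ^4 + 2*p2*t0*t1*ζ^5 + p2*t0*t1*ζ^6 + p2*t0*t1*ζ^7 +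
        (-2)*p2*t0*t1*ζ^8 + 3*p2*t0*t1*ζ^9 + p2*t0*t2*ζ^2 + p2*t0*t2*ζ^4 + (-1)*p2*t0*t2*ζ^5 +
        3*p2*t0*t2*ζ^6 + p2*t0*t2*ζ^8 + p2*t0*t2*ζ^9 + p2*t0^2*ζ^3 + 2*p2*t0^2*ζ^7 + (-1)*p2*t0^2*ζ^9 +
        p2*t0^2*ζ^10 + 2*p2*t1*t2*ζ^2 + (-2)*p2*t1*t2*ζ^3 + p2*t1*t2*ζ^4 + p2*t1*t2*ζ^5 + 2*p2*t1*t2*ζ^6 +
        p2*t1*t2*ζ^8 + p2*t1*t2*ζ^9 + (-7)*p2*t1^2 + 7*p2*t1^2*ζ + (-7)*p2*t1^2*ζ^2 + 7*p2*t1^2*ζ^3 +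
        (-4)*p2*t1^2*ζ^5 + 4*p2*t1^2*ζ^6 + (-2)*p2*t1^2*ζ^7 + 2*p2*t1^2*ζ^8 + p2*t2^2*ζ^2 + (-1)*p2*t2^2*ζ^4
        + 2*p2*t2^2*ζ^6 + p2*t2^2*ζ^8 + (-7)*p2^2*t0 + 7*p2^2*t0*ζ + (-5)*p2^2*t0*ζ^3 + 5*p2^2*t0*ζ^5 +
        (-2)*p2^2*t0*ζ^7 + 2*p2^2*t0*ζ^8 + (-1)*p2^2*t0*ζ^10 + p2^2*t0*ζ^11 + p2^2*t1*ζ^3 + (-1)*p2^2*t1*ζ^4
        + 3*p2^2*t1*ζ^5 + (-3)*p2^2*t1*ζ^6 + 3*p2^2*t1*ζ^7 + (-1)*p2^2*t1*ζ^9 + p2^2*t1*ζ^10 + p2^2*t2*ζ^2 +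
        (-1)*p2^2*t2*ζ^4 + 2*p2^2*t2*ζ^6 + p2^2*t2*ζ^8 + p2^3*ζ^3 + (-1)*p2^3*ζ^4 + p2^3*ζ^6 + (-1)*p2^3*ζ^8
        + p2^3*ζ^9 + 7*t0*t1*t2 + (-7)*t0*t1*t2*ζ + t0*t1*t2*ζ^2 + t0*t1*t2*ζ^4 + t0*t1*t2*ζ^5 +
        t0*t1*t2*ζ^6 + 3*t0*t1*t2*ζ^7 + (-1)*t0*t1*t2*ζ^8 + t0*t1*t2*ζ^10 + t0*t1^2*ζ^3 + (-1)*t0*t1^2*ζ^4 +
        2*t0*t1^2*ζ^5 + (-1)*t0*t1^2*ζ^6 + t0*t1^2*ζ^7 + t0*t1^2*ζ^8 + t0*t2^2*ζ^3 + t0*t2^2*ζ^6 +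
        t0*t2^2*ζ^9 + t0^2*t1*ζ^3 + (-1)*t0^2*t1*ζ^4 + t0^2*t1*ζ^5 + t0^2*t1*ζ^6 + t0^2*t1*ζ^8 + t0^2*t2*ζ^4
        + t0^2*t2*ζ^6 + t0^2*t2*ζ^8 + t0^3*ζ^6 + t1*t2^2*ζ^2 + t1*t2^2*ζ^7 + t1*t2^2*ζ^8 + (-1)*t1*t2^2*ζ^9
        + t1*t2^2*ζ^10 + t1^2*t2*ζ^2 + (-1)*t1^2*t2*ζ^3 + t1^2*t2*ζ^4 + t1^2*t2*ζ^6 + t1^2*t2*ζ^9 + t1^3*ζ^5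
        + (-1)*t1^3*ζ^6 + t1^3*ζ^7 + t2^3*ζ^3 + (-1)*t2^3*ζ^4 + t2^3*ζ^6 + (-1)*t2^3*ζ^8 + t2^3*ζ^9) * hz - 7 * hII

end BR7.H50
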