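import Pool.Agent.Lib.MP_defcf3_al.BR.H50.KeyB

/-! KEY. -/

namespace BR7.H50

universe u

open BR7

variable {F Ω : Type u} [Field F] [Field Ω] [Algebra F Ω]

theorem g_of_gamma {ζ : Ωˣ} {γ : Ω ≃ₐ[F] Ω} {k d : ℕ} {Q : Type u} [AddCommGroup Q] {sym : Ωˣ → Ωˣ → Q}
    {Γ : AddMonoid.End Q} (hS : SymAx F ζ γ k d sym Γ) {a : Ωˣ} (ha : InL F ζ a) (g : Ω ≃ₐ[F] Ω) :
    ∃ i : ℕ, g • a = γ ^ i • a := by
  obtain ⟨i, hi⟩ := hS.gen g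
  refine ⟨i, ?_⟩
  have h1 : ((γ ^ i)⁻¹ * g) • ζ = ζ := by
    rw [mul_smul, hi, inv_smul_smul]
  have h2 := ha _ h1
  rw [mul_smul, inv_smul_eq_iff] at h2
  exact h2

/-- The final step: from the vanishing of sym c b0 to the statement. -/
theorem key_fin {ζ : Ωˣ} {γ : Ω ≃ₐ[F] Ω} {k d : ℕ} {Q : Type u} [AddCommGroup Q] {sym : Ωˣ → Ωˣ → Q}
    {Γ : AddMonoid.End Q} (hS : SymAx F ζ γ k d sym Γ) {c w0 w1 w2 : Ωˣ} (hc : InL F ζ c)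
    (h0 : InL F ζ w0) (h1 : InL F ζ w1) (h2 : InL F ζ w2)
    (h : sym c (w0 ^ 4 * w1 ^ 2 * w2)⁻¹ = 0) : sym c (w0 * w1 ^ 4 * w2 ^ 2) = 0 := by
  have hT : InL F ζ (w0 * w1 ^ 4 * w2 ^ 2) := InL_mul (InL_mul h0 (InL_pow h1 4)) (InL_pow h2 2)
  have hB : InL F ζ (w0 ^ 4 * w1 ^ 2 * w2) := InL_mul (InL_mul (InL_pow h0 4) (InL_pow h1 2)) h2
  have hP : InL F ζ (w1 ^ 2 * w2) := InL_mul (InL_pow h1 2) h2
  have e : (w0 * w1 ^ 4 * w2 ^ 2) ^ 4 = (w0 ^ 4 * w1 ^ 2 * w2) * (w1 ^ 2 * w2) ^ 7 := by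
    ext
    push_cast
    ring
  have s1 : (4 : ℕ) • sym c (w0 * w1 ^ 4 * w2 ^ 2) = 0 := by
    rw [← sym_pow_right hS hc hT, e, hS.add_right _ _ _ hc hB (InL_pow hP 7), sym_pow_right hS hc hP,
      hS.tors _ _ hc hP, add_zero]
    rw [sym_inv_right hS hc hB, neg_eq_zero] at h
    exact h
  have s2 := hS.tors _ _ hc hT
  have : sym c (w0 * w1 ^ 4 * w2 ^ 2) = (2 : ℕ) • ((4 : ℕ) • sym c (w0 * w1 ^ 4 * w2 ^ 2)) -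
      (7 : ℕ) • sym c (w0 * w1 ^ 4 * w2 ^ 2) := by
    abel
  rw [this, s1, s2]
  simp

/-- From sym c b0 = sym f β to the vanishing of sym c b0. -/
theorem key_gal {ζ : Ωˣ} {γ : Ω ≃ₐ[F] Ω} {Q : Type u} [AddCommGroup Q] {sym : Ωˣ → Ωˣ → Q}
    {Γ : AddMonoid.End Q} (hS : SymAx F ζ γ 3 6 sym Γ) {c w0 w1 w2 f β : Ωˣ} (hc : InL F ζ c)
    (h0 : InL F ζ w0) (h1 : InL F ζ w1) (h2 : InL F ζ w2)
    (g0 : γ • w0 = w2) (g1 : γ • w1 = w0) (g2 : γ • w2 = w1) (gc : γ • c = c⁻¹)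
    (hf : InF F f) (hβ : InL F ζ β)
    (h : sym c (w0 ^ 4 * w1 ^ 2 * w2)⁻¹ = sym f β) : sym c (w0 ^ 4 * w1 ^ 2 * w2)⁻¹ = 0 := by
  set b0 := (w0 ^ 4 * w1 ^ 2 * w2)⁻¹ with hb0
  have hB : InL F ζ b0 := InL_inv (InL_mul (InL_mul (InL_pow h0 4) (InL_pow h1 2)) h2)
  set s := sym c b0 with hs
  have t7 : (7 : ℕ) • s = 0 := hS.tors _ _ hc hB
  have hP : InL F ζ (w0 ^ 2 * w1) := InL_mul (InL_pow h0 2) h1
  have hb : γ • b0 = b0 ^ 4 * (w0 ^ 2 * w1) ^ 7 := by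
    rw [hb0, smul_inv', smul_mul', smul_mul', smul_pow', smul_pow', g0, g1, g2]
    rw [inv_pow, eq_comm, inv_mul_eq_iff_eq_mul, eq_mul_inv_iff_mul_eq]
    ext
    push_cast
    ring
  have e1 : (3 : ℕ) • Γ s = - ((4 : ℕ) • s) := by
    have := hS.gal c b0 hc hB
    rw [this, gc, hb, hS.add_right _ _ _ (InL_inv hc) (InL_pow hB 4) (InL_pow hP 7),
      sym_pow_right hS (InL_inv hc) hP, hS.tors _ _ (InL_inv hc) hP, add_zero,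
      sym_pow_right hS (InL_inv hc) hB, sym_inv_left hS hc hB, smul_neg]
  have t7' : (7 : ℕ) • Γ s = 0 := by rw [← map_nsmul, t7, map_zero]
  have e2 : Γ s = s := by
    have a : Γ s = (5 : ℕ) • ((3 : ℕ) • Γ s) - (2 : ℕ) • ((7 : ℕ) • Γ s) := by abel
    rw [a, e1, t7']
    have b : (5 : ℕ) • (-((4 : ℕ) • s)) - (2 : ℕ) • (0 : Q) = s - (3 : ℕ) • ((7 : ℕ) • s) := by
      abel
    rw [b, t7]
    simp
  have e3 : ∀ i : ℕ, (Γ ^ i) s = s := by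
    intro i
    induction i with
    | zero => rfl
    | succ i ih =>
      rw [pow_succ]
      change (Γ ^ i) (Γ s) = s
      rw [e2, ih]
  have e4 := hS.triv f β hf hβ
  rw [← h] at e4
  simp only [e3, Finset.sum_const, Finset.card_range] at e4
  have : s = (7 : ℕ) • s - (6 : ℕ) • s := by abel
  rw [this, t7, e4]
  simp

/-- The seven conjugates for the line. -/
def MZ (z R Q θ : Ω) (j : ZMod 7) : Ω :=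
  MM z (lineX (z + z ^ 6) R Q) (lineX (z ^ 2 + z ^ 5) R Q) (lineX (z ^ 4 + z ^ 3) R Q)
    (lineY (z + z ^ 6) R Q) (lineY (z ^ 2 + z ^ 5) R Q) (lineY (z ^ 4 + z ^ 3) R Q) θ j

theorem MZ_map (τ : Ω ≃ₐ[F] Ω) {z : Ω} (hτ : τ z = z) (r q : F) (θ : Ω) (j : ZMod 7) :
    τ (MZ z (algebraMap F Ω r) (algebraMap F Ω q) θ j) =
      MZ z (algebraMap F Ω r) (algebraMap F Ω q) (τ θ) j := by
  unfold MZ
  refine MM_map τ.toRingEquiv hτ ?_ ?_ ?_ ?_ ?_ ?_ θ j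
  · change τ _ = _
    rw [map_lineX, map_add, map_pow, hτ]
  · change τ _ = _
    rw [map_lineX, map_add, map_pow, map_pow, hτ]
  · change τ _ = _
    rw [map_lineX, map_add, map_pow, map_pow, hτ]
  · change τ _ = _
    rw [map_lineY, map_add, map_pow, hτ]
  · change τ _ = _
    rw [map_lineY, map_add, map_pow, map_pow, hτ]
  · change τ _ = _
    rw [map_lineY, map_add, map_pow, map_pow, hτ]

theorem MZ_match (hL : LineStatement.{u}) (hM : MatchStatement.{u}) {z : Ω} (hz : z ^ 7 = 1)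
    (hs : 1 + z + z ^ 2 + z ^ 3 + z ^ 4 + z ^ 5 + z ^ 6 = 0) (R Q θ : Ω)
    (hX : lineX (z + z ^ 6) R Q * lineX (z ^ 2 + z ^ 5) R Q * lineX (z ^ 4 + z ^ 3) R Q ≠ 0)
    (hθ : θ ^ 7 * (lineX (z + z ^ 6) R Q ^ 4 * lineX (z ^ 2 + z ^ 5) R Q ^ 2 *
      lineX (z ^ 4 + z ^ 3) R Q) = 1) :
    E1 (MZ z R Q θ) = 0 ∧ E2 (MZ z R Q θ) = 0 ∧ E3 (MZ z R Q θ) = 0 := by
  obtain ⟨l1, l2⟩ := lineZ hL hz hs R Q
  exact MM_match hM hs hX hθ l1 l2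

theorem MZ_normM (hN : NormMStatement.{u}) [IsGalois F Ω] {ζ : Ωˣ} {γ : Ω ≃ₐ[F] Ω} (hp : IsPrimitiveRoot ζ 7)
    (hγ : γ • ζ = ζ ^ 3) (r q : F) (θ : Ωˣ)
    (hX0 : lineX ((ζ : Ω) + (ζ : Ω) ^ 6) (algebraMap F Ω r) (algebraMap F Ω q) ≠ 0)
    (hX : lineX ((ζ : Ω) + (ζ : Ω) ^ 6) (algebraMap F Ω r) (algebraMap F Ω q) *
      lineX ((ζ : Ω) ^ 2 + (ζ : Ω) ^ 5) (algebraMap F Ω r) (algebraMap F Ω q) *
      lineX ((ζ : Ω) ^ 4 + (ζ : Ω) ^ 3) (algebraMap F Ω r) (algebraMap F Ω q) ≠ 0)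
    (hθ : (θ : Ω) ^ 7 * (lineX ((ζ : Ω) + (ζ : Ω) ^ 6) (algebraMap F Ω r) (algebraMap F Ω q) ^ 4 *
      lineX ((ζ : Ω) ^ 2 + (ζ : Ω) ^ 5) (algebraMap F Ω r) (algebraMap F Ω q) ^ 2 *
      lineX ((ζ : Ω) ^ 4 + (ζ : Ω) ^ 3) (algebraMap F Ω r) (algebraMap F Ω q)) = 1) :
    (∀ g : Ω ≃ₐ[F] Ω, g (∏ j, MZ (ζ : Ω) (algebraMap F Ω r) (algebraMap F Ω q) θ j) =
      ∏ j, MZ (ζ : Ω) (algebraMap F Ω r) (algebraMap F Ω q) θ j) ∧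
    ((∃ g : Ω ≃ₐ[F] Ω, g • ζ = ζ ∧ g • θ ≠ θ) →
      ∀ j, MZ (ζ : Ω) (algebraMap F Ω r) (algebraMap F Ω q) θ j ≠ 0) := by
  set X0 := lineX ((ζ : Ω) + (ζ : Ω) ^ 6) (algebraMap F Ω r) (algebraMap F Ω q) with hx0
  set X1 := lineX ((ζ : Ω) ^ 2 + (ζ : Ω) ^ 5) (algebraMap F Ω r) (algebraMap F Ω q) with hx1
  set X2 := lineX ((ζ : Ω) ^ 4 + (ζ : Ω) ^ 3) (algebraMap F Ω r) (algebraMap F Ω q) with hx2
  have hX1 : X1 ≠ 0 := fun h => hX (by rw [h]; ring)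
  have hθ0 : (θ : Ω) ≠ 0 := θ.ne_zero
  have ht1 : X0 * (θ : Ω) ^ 2 ≠ 0 := mul_ne_zero hX0 (pow_ne_zero 2 hθ0)
  have ht2 : X1 * (X0 * (θ : Ω) ^ 2) ^ 2 ≠ 0 := mul_ne_zero hX1 (pow_ne_zero 2 ht1)
  have := hN F Ω ζ γ hp hγ r q θ X0 X1 X2 hx0 hx1 hx2 hX0 hθ (X0 * (θ : Ω) ^ 2)
    (X1 * (X0 * (θ : Ω) ^ 2) ^ 2)
    (lineY ((ζ : Ω) + (ζ : Ω) ^ 6) (algebraMap F Ω r) (algebraMap F Ω q) / (θ * (X0 * X1 * X2)))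
    (lineY ((ζ : Ω) ^ 2 + (ζ : Ω) ^ 5) (algebraMap F Ω r) (algebraMap F Ω q) /
      (X0 * (θ : Ω) ^ 2 * (X0 * X1 * X2)))
    (lineY ((ζ : Ω) ^ 4 + (ζ : Ω) ^ 3) (algebraMap F Ω r) (algebraMap F Ω q) /
      (X1 * (X0 * (θ : Ω) ^ 2) ^ 2 * (X0 * X1 * X2))) rfl rfl
    (by rw [mul_assoc, div_mul_cancel₀ _ (mul_ne_zero hθ0 hX)])
    (by rw [mul_assoc, div_mul_cancel₀ _ (mul_ne_zero ht1 hX)])
    (by rw [mul_assoc, div_mul_cancel₀ _ (mul_ne_zero ht2 hX)])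
  exact this

end BR7.H50
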