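import Pool.Agent.Lib.MP_defcf3_al.BR.H50.Gen
import Pool.Agent.Lib.MP_defcf3_al.BR.H50.KeyC

/-! HONE, HTWO, HTHREE. -/

namespace BR7.H50

universe u

open BR7

theorem hone : HeartStatement.{u} 1 1 := by
  intro F Ω _ _ _ _ _ ζ γ Q _ sym Γ hS a b ha hb
  refine hS.triv a b ?_ hb
  intro g
  obtain ⟨i, hi⟩ := hS.gen g
  have h1 : ∀ i : ℕ, (γ ^ i) • ζ = ζ := by
    intro i
    induction i with
    | zero => simp
    | succ i ih => rw [pow_succ, mul_smul, hS.act, pow_one, ih]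
  exact ha g (by rw [hi, h1])

/-- The fixed field of δ in L. -/
def fixE (F : Type u) {Ω : Type u} [Field F] [Field Ω] [Algebra F Ω] (ζ : Ωˣ) (δ : Ω ≃ₐ[F] Ω) :
    Subfield Ω where
  carrier := {x | (∀ g : Ω ≃ₐ[F] Ω, g • ζ = ζ → g x = x) ∧ δ x = x}
  mul_mem' := by
    rintro x y ⟨h1, h2⟩ ⟨h3, h4⟩
    exact ⟨fun g hg => by rw [map_mul, h1 g hg, h3 g hg], by rw [map_mul, h2, h4]⟩
  one_mem' := ⟨fun g _ => map_one g, map_one δ⟩
  add_mem' := by
    rintro x y ⟨h1, h2⟩ ⟨h3, h4⟩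
    exact ⟨fun g hg => by rw [map_add, h1 g hg, h3 g hg], by rw [map_add, h2, h4]⟩
  zero_mem' := ⟨fun g _ => map_zero g, map_zero δ⟩
  neg_mem' := by
    rintro x ⟨h1, h2⟩
    exact ⟨fun g hg => by rw [map_neg, h1 g hg], by rw [map_neg, h2]⟩
  inv_mem' := by
    rintro x ⟨h1, h2⟩
    exact ⟨fun g hg => by rw [map_inv₀, h1 g hg], by rw [map_inv₀, h2]⟩

theorem hsmall (hG : GenStatement.{u}) (hRel : RelStatement.{u}) (k d : ℕ)
    (hord : k ^ 3 % 7 = 1 ∨ k ^ 2 % 7 = 1) : HeartStatement.{u} k d := by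
  intro F Ω _ _ _ _ _ ζ γ Q _ sym Γ hS a b ha hb
  have hpow : ∀ i : ℕ, γ ^ i • ζ = ζ ^ (k ^ i) := by
    intro i
    induction i with
    | zero => simp
    | succ i ih => rw [pow_succ', mul_smul, ih, smul_pow', hS.act, ← pow_mul, pow_succ']
  have h7 : ζ ^ 7 = 1 := hS.prim.pow_eq_one
  have hred : ∀ n : ℕ, n % 7 = 1 → ζ ^ n = ζ := by
    intro n hn
    rw [← Nat.mod_add_div n 7, hn, pow_add, pow_mul, h7, one_pow, mul_one, pow_one]
  have hrel := hRel F Ω ζ γ (fixE F ζ γ) h7 ⟨k, hS.act⟩ (by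
    rcases hord with h | h
    · left; rw [hpow, hred _ h]
    · right; rw [hpow, hred _ h]) (fun e => Iff.rfl)
  have hmain := hG F Ω ζ γ k d Q sym Γ hS (fixE F ζ γ) (fun e he => he.1) hrel
    (∑ i ∈ Finset.range d, (Γ ^ i : AddMonoid.End Q)) (fun e l he hl => by
      have heL : InL F ζ e := fun g hg => Units.ext (he.1 g hg)
      have heF : InF F e := by
        intro g
        obtain ⟨i, hi⟩ := g_of_gamma hS heL g
        rw [hi]
        have h1 : γ • e = e := Units.ext he.2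
        clear hi
        induction i with
        | zero => simp
        | succ i ih => rw [pow_succ, mul_smul, h1, ih]
      have := hS.triv e l heF hl
      rw [← this]
      exact AddMonoidHom.finsetSum_apply _ _ _) a b ha hb
  rw [← hmain]
  exact (AddMonoidHom.finsetSum_apply _ _ _).symm

theorem htwo (hG : GenStatement.{u}) (hRel : RelStatement.{u}) : HeartStatement.{u} 6 2 :=
  hsmall hG hRel 6 2 (Or.inr (by norm_num))

theorem hthree (hG : GenStatement.{u}) (hRel : RelStatement.{u}) : HeartStatement.{u} 2 3 :=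
  hsmall hG hRel 2 3 (Or.inl (by norm_num))

end BR7.H50
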