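import Pool.Agent.Lib.MP_defcf3_al.BR.H50.Match

/-! H3: trace of the monodromy matrix. -/

namespace BR7.H50

universe u

theorem trace7 {Ω : Type u} [Field Ω] (φ : Ω) (μ : ZMod 7 → Ω) :
    (!![φ, -μ 6; 1, 0] * !![φ, -μ 5; 1, 0] * !![φ, -μ 4; 1, 0] * !![φ, -μ 3; 1, 0] *
      !![φ, -μ 2; 1, 0] * !![φ, -μ 1; 1, 0] * !![φ, -μ 0; 1, 0] : Matrix (Fin 2) (Fin 2) Ω).trace =
      φ ^ 7 - φ ^ 5 * BR7.E1 μ + φ ^ 3 * BR7.E2 μ - φ * BR7.E3 μ := by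
  rw [BR7.E1, BR7.E2, BR7.E3, sum7, sum7, sum7]
  rw [show ((0 : ZMod 7) + 2) = 2 from rfl, show ((0 : ZMod 7) + 3) = 3 from rfl,
      show ((0 : ZMod 7) + 4) = 4 from rfl,
      show ((1 : ZMod 7) + 2) = 3 from rfl, show ((1 : ZMod 7) + 3) = 4 from rfl,
      show ((1 : ZMod 7) + 4) = 5 from rfl,
      show ((2 : ZMod 7) + 2) = 4 from rfl, show ((2 : ZMod 7) + 3) = 5 from rfl,
      show ((2 : ZMod 7) + 4) = 6 from rfl,
      show ((3 : ZMod 7) + 2) = 5 from rfl, show ((3 : ZMod 7) + 3) = 6 from rfl,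
      show ((3 : ZMod 7) + 4) = 0 from rfl,
      show ((4 : ZMod 7) + 2) = 6 from rfl, show ((4 : ZMod 7) + 3) = 0 from rfl,
      show ((4 : ZMod 7) + 4) = 1 from rfl,
      show ((5 : ZMod 7) + 2) = 0 from rfl, show ((5 : ZMod 7) + 3) = 1 from rfl,
      show ((5 : ZMod 7) + 4) = 2 from rfl,
      show ((6 : ZMod 7) + 2) = 1 from rfl, show ((6 : ZMod 7) + 3) = 2 from rfl,
      show ((6 : ZMod 7) + 4) = 3 from rfl]
  simp only [Matrix.mul_fin_two, Matrix.trace_fin_two_of]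
  ring

theorem trace : BR7.TraceStatement.{u} := by
  intro Ω _ φ μ h1 h2 h3
  rw [trace7, h1, h2, h3]
  ring

end BR7.H50
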