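import Pool.Agent.Lib.MP_defcf3_al.BR.H22.Fix
import Pool.Agent.Lib.MP_defcf3_al.BR.H22.H90
import Pool.Agent.Lib.MP_defcf3_al.BR.H22.Kum
import Pool.Agent.Lib.MP_defcf3_al.BR.H22.Rel
import Pool.Agent.Lib.MP_defcf3_al.BR.H30.HSix
import Pool.Agent.Lib.MP_defcf3_al.BR.H30.NormM
import Pool.Agent.Lib.MP_defcf3_al.BR.H38.Conj
import Pool.Agent.Lib.MP_defcf3_al.BR.H38.Generic
import Pool.Agent.Lib.MP_defcf3_al.BR.H38.Index
import Pool.Agent.Lib.MP_defcf3_al.BR.H38.Norm
import Pool.Agent.Lib.MP_defcf3_al.BR.H38.Sadd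
import Pool.Agent.Lib.MP_defcf3_al.BR.H38.Triv
import Pool.Agent.Lib.MP_defcf3_al.BR.H4.Dlog
import Pool.Agent.Lib.MP_defcf3_al.BR.H6.Ker
import Pool.Agent.Lib.MP_defcf3_al.BR.H81.Cyclo
import Pool.Agent.Lib.MP_defcf3_al.BR.H81.Ric
import Pool.Agent.Lib.MP_defcf3_al.BR.H81.Skum
import Pool.Agent.Lib.MP_defcf3_al.BR.H84.Cycz
import Pool.Agent.Lib.MP_defcf3_al.BR.H84.Nconv
import Pool.Agent.Lib.MP_defcf3_al.BR.H84.Root
import Pool.Agent.Lib.MP_defcf3_al.BR.H50.Key
import Pool.Agent.Lib.MP_defcf3_al.BR.H50.Main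
import Pool.Agent.Lib.MP_defcf3_al.BR.H50.Gen
import Pool.Agent.Lib.MP_defcf3_al.BR.H50.Small
import Pool.Agent.Lib.MP_defcf3_al.BR.H50.Line
import Pool.Agent.Lib.MP_defcf3_al.BR.H50.Match
import Pool.Agent.Lib.MP_defcf3_al.BR.H50.Trace

/-! All modules of the first stage put together. -/

namespace BR7.H50.Full

universe u

open BR7

theorem kum : KumStatement.{u} := H22.kum H4.dlog H4.disc

theorem sadd : SymAddStatement.{u} := H38.sadd H38.gz H38.gadd H38.gtors H4.disc kum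

theorem ndir : NormDirStatement.{u} := H38.ndir H38.push H38.gcob

theorem sstein : SymSteinStatement.{u} := H38.sstein ndir H4.disc kum H38.gz

theorem snorm : SymNormStatement.{u} := H38.snorm ndir H4.disc kum H38.gz

theorem skum : SymKumStatement.{u} := H81.skum ndir H6.ker H4.disc H22.h90 kum sadd sstein

theorem sgal : SymGalStatement.{u} := H38.sgal kum H38.gadd H38.gz H38.conjc H4.disc

theorem triv : TrivStatement.{u} := H38.triv H38.gtrans kum H4.disc

theorem cycz : CycZeroStatement.{u} :=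
  H84.cycz H38.gz H38.gadd H38.gtors H38.gcob H38.gmod H38.push H38.gchar H84.nconv H4.disc H22.h90
    H81.cyclo (H84.root H4.dlog H4.disc H22.h90) H38.index

theorem key : KeyStatement.{u} :=
  H50.key H50.line H50.matchSums (H81.ric H50.trace) H30.normm

theorem hsix : HeartStatement.{u} 3 6 := H30.hsix H50.gen H22.rel H22.fix key

theorem main : MainCohStatement.{u} :=
  H50.main sadd sstein snorm skum sgal triv H4.disc H38.conjc (H38.conjres H38.bz) cycz H50.hone
    (H50.htwo H50.gen H22.rel) (H50.hthree H50.gen H22.rel) hsix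

end BR7.H50.Full
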