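import Pool.Agent.Lib.MP_defcf3_al.BR.BaseC

/-! Calculus of classes, the map induced by conjugation, the choice of γ. -/

namespace BR7.H50

universe u

open BR7

section

variable {G : Type*} [Group G] [TopologicalSpace G] {A : Type*} [CommGroup A] [MulDistribMulAction G A]

theorem cls_of_mem {f : G → G → A} (h : f ∈ Z2 G A) : cls G A f = QuotientGroup.mk ⟨f, h⟩ := by
  unfold cls
  rw [dif_pos h]

theorem cls_mul {f f' : G → G → A} (h : f ∈ Z2 G A) (h' : f' ∈ Z2 G A) :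
    cls G A (f * f') = cls G A f * cls G A f' := by
  rw [cls_of_mem h, cls_of_mem h', cls_of_mem (mul_mem h h')]
  rfl

theorem cls_inv {f : G → G → A} (h : f ∈ Z2 G A) : cls G A f⁻¹ = (cls G A f)⁻¹ := by
  rw [cls_of_mem h, cls_of_mem (inv_mem h)]
  rfl

theorem cls_pow {f : G → G → A} (h : f ∈ Z2 G A) (n : ℕ) : cls G A (f ^ n) = cls G A f ^ n := by
  rw [cls_of_mem h, cls_of_mem (pow_mem h n)]
  rfl

theorem cls_one_iff {f : G → G → A} (h : f ∈ Z2 G A) : cls G A f = 1 ↔ f ∈ B2 G A := by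
  rw [cls_of_mem h, QuotientGroup.eq_one_iff, Subgroup.mem_subgroupOf]

theorem cls_eq_iff {f f' : G → G → A} (h : f ∈ Z2 G A) (h' : f' ∈ Z2 G A) :
    cls G A f = cls G A f' ↔ f * f'⁻¹ ∈ B2 G A := by
  rw [← mul_inv_eq_one, ← cls_inv h', ← cls_mul h (inv_mem h'), cls_one_iff (mul_mem h (inv_mem h'))]

theorem cls_surj (x : H2 G A) : ∃ f ∈ Z2 G A, cls G A f = x := by
  obtain ⟨⟨f, hf⟩, rfl⟩ := QuotientGroup.mk_surjective x
  exact ⟨f, hf, cls_of_mem hf⟩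

end

section

variable {G : Type u} [Group G] [TopologicalSpace G] {A : Type u} [CommGroup A] [MulDistribMulAction G A]

/-- The endomorphism of H2 induced by a map of cochains preserving cocycles and coboundaries. -/
noncomputable def mapH2 (H : Subgroup G) (c : (H → H → A) →* (H → H → A))
    (hZ : ∀ f ∈ Z2 H A, c f ∈ Z2 H A) (hB : ∀ f ∈ B2 H A, c f ∈ B2 H A) : H2 H A →* H2 H A :=
  QuotientGroup.map _ _ ((c.comp (Z2 H A).subtype).codRestrict (Z2 H A) (fun f => hZ f f.2)) (by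
    intro f hf
    rw [Subgroup.mem_comap, Subgroup.mem_subgroupOf]
    rw [Subgroup.mem_subgroupOf] at hf
    exact hB _ hf)

theorem mapH2_cls (H : Subgroup G) (c : (H → H → A) →* (H → H → A))
    (hZ : ∀ f ∈ Z2 H A, c f ∈ Z2 H A) (hB : ∀ f ∈ B2 H A, c f ∈ B2 H A) {f : H → H → A} (hf : f ∈ Z2 H A) :
    mapH2 H c hZ hB (cls H A f) = cls H A (c f) := by
  rw [cls_of_mem hf, cls_of_mem (hZ f hf)]
  rfl

end

/-- The choice of γ. -/
theorem cases_gamma {F Ω : Type u} [Field F] [Field Ω] [Algebra F Ω] {ζ : Ωˣ} (hp : IsPrimitiveRoot ζ 7) :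
    ∃ (γ : Ω ≃ₐ[F] Ω) (k d : ℕ), ((k = 1 ∧ d = 1) ∨ (k = 6 ∧ d = 2) ∨ (k = 2 ∧ d = 3) ∨ (k = 3 ∧ d = 6)) ∧
      γ • ζ = ζ ^ k ∧ ∀ g : Ω ≃ₐ[F] Ω, ∃ i : ℕ, i < d ∧ g • ζ = (γ ^ i) • ζ := by
  have h7 := hp.pow_eq_one
  have hj : ∀ g : Ω ≃ₐ[F] Ω, ∃ j : ℕ, j < 7 ∧ g • ζ = ζ ^ j := by
    intro g
    have : (((g • ζ : Ωˣ)) : Ω) ^ 7 = 1 := by
      rw [← Units.val_pow_eq_pow_val, ← smul_pow', h7, smul_one, Units.val_one]
    obtain ⟨j, hj, he⟩ := (hp.map_of_injective (f := Units.coeHom Ω)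
      Units.val_injective).eq_pow_of_pow_eq_one this
    refine ⟨j, hj, Units.ext ?_⟩
    rw [← he]
    simp
  have hj0 : ∀ g : Ω ≃ₐ[F] Ω, g • ζ ≠ ζ ^ 0 := by
    intro g h
    rw [pow_zero] at h
    have : ζ = 1 := by
      have h2 : g⁻¹ • g • ζ = g⁻¹ • (1 : Ωˣ) := by rw [h]
      rwa [inv_smul_smul, smul_one] at h2
    rw [this] at hp
    have := hp.unique IsPrimitiveRoot.one
    omega
  have hcomp : ∀ (g h : Ω ≃ₐ[F] Ω) (i j : ℕ), g • ζ = ζ ^ i → h • ζ = ζ ^ j → (g * h) • ζ = ζ ^ (i * j) := by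
    intro g h i j hg hh
    rw [mul_smul, hh, smul_pow', hg, ← pow_mul]
  have hred : ∀ a b : ℕ, a % 7 = b % 7 → ζ ^ a = ζ ^ b := by
    intro a b h
    rw [← Nat.mod_add_div a 7, ← Nat.mod_add_div b 7, pow_add, pow_add, pow_mul, pow_mul, h7, one_pow,
      one_pow, h]
  have hpow : ∀ (g : Ω ≃ₐ[F] Ω) (k : ℕ), g • ζ = ζ ^ k → ∀ i : ℕ, (g ^ i) • ζ = ζ ^ (k ^ i) := by
    intro g k hg i
    induction i with
    | zero => simp
    | succ i ih => rw [pow_succ', mul_smul, ih, smul_pow', hg, ← pow_mul, pow_succ']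
  by_cases c3 : ∃ g : Ω ≃ₐ[F] Ω, g • ζ = ζ ^ 3
  · obtain ⟨γ, hγ⟩ := c3
    refine ⟨γ, 3, 6, by simp, hγ, ?_⟩
    intro g
    obtain ⟨j, hj7, hg⟩ := hj g
    have hp' := hpow γ 3 hγ
    interval_cases j
    · exact absurd hg (hj0 g)
    · exact ⟨0, by norm_num, by rw [hg, hp']; exact hred _ _ rfl⟩
    · exact ⟨2, by norm_num, by rw [hg, hp']; exact hred _ _ rfl⟩
    · exact ⟨1, by norm_num, by rw [hg, hp']; exact hred _ _ rfl⟩
    · exact ⟨4, by norm_num, by rw [hg, hp']; exact hred _ _ rfl⟩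
    · exact ⟨5, by norm_num, by rw [hg, hp']; exact hred _ _ rfl⟩
    · exact ⟨3, by norm_num, by rw [hg, hp']; exact hred _ _ rfl⟩
  have n3 : ∀ (g : Ω ≃ₐ[F] Ω) (j : ℕ), g • ζ = ζ ^ j → j % 7 ≠ 3 := by
    intro g j hg h
    exact c3 ⟨g, by rw [hg]; exact hred _ _ h⟩
  have n5 : ∀ (g : Ω ≃ₐ[F] Ω) (j : ℕ), g • ζ = ζ ^ j → j % 7 ≠ 5 := by
    intro g j hg h
    have h1 : g • ζ = ζ ^ 5 := by rw [hg]; exact hred _ _ h
    exact n3 (g ^ 5) _ (hpow g 5 h1 5) rfl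
  by_cases c2 : ∃ g : Ω ≃ₐ[F] Ω, g • ζ = ζ ^ 2
  · obtain ⟨γ, hγ⟩ := c2
    refine ⟨γ, 2, 3, by simp, hγ, ?_⟩
    intro g
    obtain ⟨j, hj7, hg⟩ := hj g
    have hp' := hpow γ 2 hγ
    interval_cases j
    · exact absurd hg (hj0 g)
    · exact ⟨0, by norm_num, by rw [hg, hp']; exact hred _ _ rfl⟩
    · exact ⟨1, by norm_num, by rw [hg, hp']; exact hred _ _ rfl⟩
    · exact absurd rfl (n3 g _ hg)
    · exact ⟨2, by norm_num, by rw [hg, hp']; exact hred _ _ rfl⟩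
    · exact absurd rfl (n5 g _ hg)
    · exact absurd rfl (n5 (g * γ) _ (hcomp g γ 6 2 hg hγ))
  have n2 : ∀ (g : Ω ≃ₐ[F] Ω) (j : ℕ), g • ζ = ζ ^ j → j % 7 ≠ 2 := by
    intro g j hg h
    exact c2 ⟨g, by rw [hg]; exact hred _ _ h⟩
  have n4 : ∀ (g : Ω ≃ₐ[F] Ω) (j : ℕ), g • ζ = ζ ^ j → j % 7 ≠ 4 := by
    intro g j hg h
    have h1 : g • ζ = ζ ^ 4 := by rw [hg]; exact hred _ _ h
    exact n2 (g ^ 2) _ (hpow g 4 h1 2) rfl
  by_cases c6 : ∃ g : Ω ≃ₐ[F] Ω, g • ζ = ζ ^ 6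
  · obtain ⟨γ, hγ⟩ := c6
    refine ⟨γ, 6, 2, by simp, hγ, ?_⟩
    intro g
    obtain ⟨j, hj7, hg⟩ := hj g
    have hp' := hpow γ 6 hγ
    interval_cases j
    · exact absurd hg (hj0 g)
    · exact ⟨0, by norm_num, by rw [hg, hp']; exact hred _ _ rfl⟩
    · exact absurd rfl (n2 g _ hg)
    · exact absurd rfl (n3 g _ hg)
    · exact absurd rfl (n4 g _ hg)
    · exact absurd rfl (n5 g _ hg)
    · exact ⟨1, by norm_num, by rw [hg, hp']; exact hred _ _ rfl⟩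
  refine ⟨1, 1, 1, by simp, by simp, ?_⟩
  intro g
  obtain ⟨j, hj7, hg⟩ := hj g
  refine ⟨0, by norm_num, ?_⟩
  interval_cases j
  · exact absurd hg (hj0 g)
  · rw [hg]; simp
  · exact absurd rfl (n2 g _ hg)
  · exact absurd rfl (n3 g _ hg)
  · exact absurd rfl (n4 g _ hg)
  · exact absurd rfl (n5 g _ hg)
  · exact absurd ⟨g, hg⟩ c6

end BR7.H50
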