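import Pool.Agent.Lib.MP_defcf3_al.BR.H50.MainC
import Pool.Agent.Lib.MP_defcf3_al.BR.H38.Sadd

/-! COHC, COHS: cohomological Theorem C. -/

namespace BR7.H50

universe u

open BR7

theorem cupResZ (hGZ : GcupZStatement.{u}) (hDisc : DiscStatement.{u}) : CupResZ.{u} := by
  intro F Ω _ _ _ _ a χ ha hχ hχc
  exact H38.cup_mem_Z2 hGZ (hDisc F Ω) 7 a ha χ hχ hχc

theorem mul_pow_seven {G A : Type u} [Group G] [TopologicalSpace G] [CommGroup A] [MulDistribMulAction G A]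
    (s t : H2 G A) (hs : s ^ 7 = 1) (ht : t ^ 7 = 1) : (s * t) ^ 7 = 1 := by
  have h : ∀ {M : Type u} [CommGroup M] (a b : M), a ^ 7 = 1 → b ^ 7 = 1 → (a * b) ^ 7 = 1 := by
    intro M _ a b ha hb
    rw [mul_pow, ha, hb, one_mul]
  exact h (M := H2 G A) s t hs ht

theorem inv_pow_seven {G A : Type u} [Group G] [TopologicalSpace G] [CommGroup A] [MulDistribMulAction G A]
    (s : H2 G A) (hs : s ^ 7 = 1) : (s⁻¹) ^ 7 = 1 := by
  have h : ∀ {M : Type u} [CommGroup M] (a : M), a ^ 7 = 1 → (a⁻¹) ^ 7 = 1 := by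
    intro M _ a ha
    rw [inv_pow, ha, inv_one]
  exact h (M := H2 G A) s hs

theorem gcd_seven {G A : Type u} [Group G] [TopologicalSpace G] [CommGroup A] [MulDistribMulAction G A]
    (s : H2 G A) (d : ℕ) (hd : Nat.Coprime d 7) (h1 : s ^ d = 1) (hs : s ^ 7 = 1) : s = 1 := by
  have h : ∀ {M : Type u} [CommGroup M] (a : M), a ^ d = 1 → a ^ 7 = 1 → a = 1 := by
    intro M _ a ha hb
    have e4 : a ^ (Nat.gcd d 7) = 1 := by
      rw [← orderOf_dvd_iff_pow_eq_one]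
      exact Nat.dvd_gcd (orderOf_dvd_of_pow_eq_one ha) (orderOf_dvd_of_pow_eq_one hb)
    rwa [hd, pow_one] at e4
  exact h (M := H2 G A) s h1 hs

theorem pow_pow_seven {G A : Type u} [Group G] [TopologicalSpace G] [CommGroup A] [MulDistribMulAction G A]
    (s : H2 G A) (m : ℕ) (hm : Nat.Coprime m 7) (hs : s ^ 7 = 1) :
    (s ^ m) ^ 7 = 1 ∧ ∃ j : ℕ, s = (s ^ m) ^ j := by
  have h : ∀ {M : Type u} [CommGroup M] (a : M), a ^ 7 = 1 → (a ^ m) ^ 7 = 1 ∧ ∃ j : ℕ, a = (a ^ m) ^ j := by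
    intro M _ a ha
    refine ⟨by rw [← pow_mul, mul_comm, pow_mul, ha, one_pow], ?_⟩
    obtain ⟨j, -, hj⟩ := Nat.exists_mul_mod_eq_one_of_coprime hm (by norm_num)
    refine ⟨j, ?_⟩
    rw [← pow_mul, ← Nat.mod_add_div (m * j) 7, hj, pow_add, pow_mul, ha, one_pow, mul_one, pow_one]
  exact h (M := H2 G A) s hs

/-- COHS. -/
theorem cohs (hMC : MainCStatement.{u}) (hCor : CorResStatement.{u}) (hIdx : IndexStatement.{u})
    (hDisc : DiscStatement.{u}) (hGZ : GcupZStatement.{u}) (hTo : GcupTorsStatement.{u}) :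
    CohSStatement.{u} := by
  intro F Ω _ _ _ _ _ ζ hp x hx hx7 hS
  have hD := hDisc F Ω
  have h1 := hMC F Ω ζ hp x hx hS
  have hlift : ∀ c ∈ Subgroup.closure {s | ∃ (a : Ωˣ) (χ : (Ω ≃ₐ[F] Ω) → ZMod 7), InF F a ∧
        (∀ g h, χ (g * h) = χ g + χ h) ∧ IsLocallyConstant χ ∧
        s = cls (HZ F ζ) Ωˣ (cup 7 a (fun h : HZ F ζ => χ h))},
      ∃ y ∈ Z2 (Ω ≃ₐ[F] Ω) Ωˣ, cls (Ω ≃ₐ[F] Ω) Ωˣ y ∈
        Subgroup.closure {s | ∃ (a : Ωˣ) (χ : (Ω ≃ₐ[F] Ω) → ZMod 7), InF F a ∧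
        (∀ g h, χ (g * h) = χ g + χ h) ∧ IsLocallyConstant χ ∧ s = cls (Ω ≃ₐ[F] Ω) Ωˣ (cup 7 a χ)} ∧
        cls (HZ F ζ) Ωˣ (fun g h : HZ F ζ => y g h) = c := by
    intro c hc
    induction hc using Subgroup.closure_induction with
    | mem s hs =>
      obtain ⟨a, χ, ha, hχ, hχc, rfl⟩ := hs
      exact ⟨cup 7 a χ, cupResZ hGZ hDisc F Ω a χ ha hχ hχc,
        Subgroup.subset_closure ⟨a, χ, ha, hχ, hχc, rfl⟩, rfl⟩
    | one =>
      refine ⟨1, one_mem _, ?_, ?_⟩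
      · rw [(cls_one_iff (one_mem _)).mpr (one_mem _)]
        exact one_mem _
      · exact (cls_one_iff (one_mem _)).mpr (one_mem _)
    | mul s t _ _ ihs iht =>
      obtain ⟨y, hy, hy2, hy3⟩ := ihs
      obtain ⟨z, hz, hz2, hz3⟩ := iht
      refine ⟨y * z, mul_mem hy hz, ?_, ?_⟩
      · rw [cls_mul hy hz]
        exact mul_mem hy2 hz2
      · rw [← hy3, ← hz3, ← cls_mul (res_Z2 _ hy) (res_Z2 _ hz)]
        rfl
    | inv s _ ihs =>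
      obtain ⟨y, hy, hy2, hy3⟩ := ihs
      refine ⟨y⁻¹, inv_mem hy, ?_, ?_⟩
      · rw [cls_inv hy]
        exact inv_mem hy2
      · rw [← hy3, ← cls_inv (res_Z2 _ hy)]
        rfl
  obtain ⟨y, hy, hy2, hy3⟩ := hlift _ h1
  have hy7 : ∀ c ∈ Subgroup.closure {s | ∃ (a : Ωˣ) (χ : (Ω ≃ₐ[F] Ω) → ZMod 7), InF F a ∧
        (∀ g h, χ (g * h) = χ g + χ h) ∧ IsLocallyConstant χ ∧ s = cls (Ω ≃ₐ[F] Ω) Ωˣ (cup 7 a χ)},
      c ^ 7 = 1 := by
    intro c hc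
    induction hc using Subgroup.closure_induction with
    | mem s hs =>
      obtain ⟨a, χ, ha, hχ, hχc, rfl⟩ := hs
      have hZ := cupResZ hGZ hDisc F Ω a χ ha hχ hχc
      rw [← cls_pow hZ, cls_one_iff (pow_mem hZ 7)]
      exact H38.cup_tors hTo hD 7 a ha χ hχ hχc
    | one => exact one_pow 7
    | mul s t _ _ ihs iht => exact mul_pow_seven s t ihs iht
    | inv s _ ihs => exact inv_pow_seven s ihs
  have hres : (fun g h : HZ F ζ => (x * y⁻¹) g h) ∈ B2 (HZ F ζ) Ωˣ := by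
    have := (cls_eq_iff (res_Z2 (HZ F ζ) hx) (res_Z2 (HZ F ζ) hy)).mp hy3.symm
    exact this
  obtain ⟨i1, i2, i3⟩ := hIdx F Ω ζ hp ⊤ isOpen_univ
  rw [top_inf_eq] at i1 i2 i3
  rw [Subgroup.relIndex_top_right] at i3
  have hcor := hCor (Ω ≃ₐ[F] Ω) Ωˣ hD (HZ F ζ) i1 i2 (x * y⁻¹) (mul_mem hx (inv_mem hy)) hres
  have e1 : cls (Ω ≃ₐ[F] Ω) Ωˣ (x * y⁻¹) ^ (HZ F ζ).index = 1 := by
    rw [← cls_pow (mul_mem hx (inv_mem hy)), cls_one_iff (pow_mem (mul_mem hx (inv_mem hy)) _)]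
    exact hcor
  have e2 : cls (Ω ≃ₐ[F] Ω) Ωˣ (x * y⁻¹) ^ 7 = 1 := by
    rw [cls_mul hx (inv_mem hy), cls_inv hy]
    exact mul_pow_seven _ _ hx7 (inv_pow_seven _ (hy7 _ hy2))
  have e4 := gcd_seven _ _ i3 e1 e2
  rw [cls_one_iff (mul_mem hx (inv_mem hy)), ← cls_eq_iff hx hy] at e4
  rw [e4]
  exact hy2

/-- COHC. -/
theorem cohc (hCS : CohSStatement.{u}) (hSev : SevenSymStatement.{u}) (hCor : CorResStatement.{u})
    (hDisc : DiscStatement.{u}) : CohCStatement.{u} := by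
  intro F Ω _ _ _ _ _ h7 f hf H hH hI hB
  have h7' : ((7 : ℕ) : Ω) ≠ 0 := by
    have h8 : ((7 : ℕ) : Ω) = algebraMap F Ω 7 := by
      rw [Nat.cast_ofNat]
      exact (map_ofNat (algebraMap F Ω) 7).symm
    rw [h8]
    exact (map_ne_zero (algebraMap F Ω)).mpr h7
  have : NeZero ((7 : ℕ) : Ω) := ⟨h7'⟩
  obtain ⟨z, hz⟩ := HasEnoughRootsOfUnity.exists_primitiveRoot Ω 7
  have hz0 : z ≠ 0 := hz.ne_zero (by norm_num)
  have hζ : IsPrimitiveRoot (Units.mk0 z hz0) 7 := by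
    rw [← IsPrimitiveRoot.coe_units_iff]
    exact hz
  obtain ⟨m, hm, hmS⟩ := hSev F Ω _ hζ f hf H hH hI hB
  have hfin : H.FiniteIndex := ⟨by rw [hI]; norm_num⟩
  have h7f := hCor (Ω ≃ₐ[F] Ω) Ωˣ (hDisc F Ω) H hH hfin f hf hB
  rw [hI] at h7f
  have e7 : cls (Ω ≃ₐ[F] Ω) Ωˣ f ^ 7 = 1 := by
    rw [← cls_pow hf, cls_one_iff (pow_mem hf 7)]
    exact h7f
  obtain ⟨hp1, j, hj⟩ := pow_pow_seven _ m hm e7
  have hx := hCS F Ω _ hζ (f ^ m) (pow_mem hf m) (by rw [cls_pow hf]; exact hp1) (by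
      have e : (fun g h : HZ F (Units.mk0 z hz0) => (f ^ m) g h) =
        (fun g h : HZ F (Units.mk0 z hz0) => f g h) ^ m := rfl
      rw [e, cls_pow (res_Z2 _ hf)]
      exact hmS)
  rw [cls_pow hf] at hx
  rw [hj]
  exact pow_mem hx j

end BR7.H50
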