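import Pool.Agent.Lib.MP_defcf3_al.BR.H50.CohC
import Pool.Agent.Lib.MP_defcf3_al.BR.StageI

/-! Final assembly, Theorem T. -/

namespace BR7.H50

universe u

open BR7

/-- A bound for the 7-primary torsion of a finite second cohomology group. -/
theorem kappa_of_finite {G A : Type u} [Group G] [TopologicalSpace G] [CommGroup A] [MulDistribMulAction G A]
    (hf : Finite (H2 G A)) :
    ∃ κ : ℕ, ∀ f ∈ Z2 G A, (∃ j : ℕ, f ^ (7 ^ j) ∈ B2 G A) → f ^ (7 ^ κ) ∈ B2 G A := by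
  have key : ∀ {M : Type u} [CommGroup M] [Finite M] (x : M) (j : ℕ), x ^ (7 ^ j) = 1 →
      x ^ (7 ^ (Nat.card M)) = 1 := by
    intro M _ _ x j hx
    obtain ⟨i, -, hi⟩ := (Nat.dvd_prime_pow (by norm_num : Nat.Prime 7)).mp (orderOf_dvd_of_pow_eq_one hx)
    rw [← orderOf_dvd_iff_pow_eq_one, hi]
    apply pow_dvd_pow
    have h1 : orderOf x ≤ Nat.card M := Nat.le_of_dvd Nat.card_pos (orderOf_dvd_natCard x)
    have h2 : i < 7 ^ i := Nat.lt_pow_self (by norm_num)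
    omega
  refine ⟨Nat.card (H2 G A), ?_⟩
  rintro f hf' ⟨j, hj⟩
  rw [← cls_one_iff (pow_mem hf' _), cls_pow hf']
  refine key (M := H2 G A) _ j ?_
  rw [← cls_pow hf', cls_one_iff (pow_mem hf' _)]
  exact hj

/-- If all cyclic classes vanish then the subgroup generated by them is trivial. -/
theorem closure_cyc_trivial {F Ω : Type u} [Field F] [Field Ω] [Algebra F Ω]
    (hZ : ∀ (a : Ωˣ) (χ : (Ω ≃ₐ[F] Ω) → ZMod 7), InF F a → (∀ g h, χ (g * h) = χ g + χ h) →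
      IsLocallyConstant χ → cup 7 a χ ∈ Z2 (Ω ≃ₐ[F] Ω) Ωˣ)
    (hB : ∀ (a : Ωˣ) (χ : (Ω ≃ₐ[F] Ω) → ZMod 7), InF F a → (∀ g h, χ (g * h) = χ g + χ h) →
      IsLocallyConstant χ → cup 7 a χ ∈ B2 (Ω ≃ₐ[F] Ω) Ωˣ)
    (c : H2 (Ω ≃ₐ[F] Ω) Ωˣ)
    (hc : c ∈ Subgroup.closure {s | ∃ (a : Ωˣ) (χ : (Ω ≃ₐ[F] Ω) → ZMod 7), InF F a ∧
        (∀ g h, χ (g * h) = χ g + χ h) ∧ IsLocallyConstant χ ∧ s = cls (Ω ≃ₐ[F] Ω) Ωˣ (cup 7 a χ)}) :
    c = 1 := by
  have h1 : Subgroup.closure {s | ∃ (a : Ωˣ) (χ : (Ω ≃ₐ[F] Ω) → ZMod 7), InF F a ∧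
        (∀ g h, χ (g * h) = χ g + χ h) ∧ IsLocallyConstant χ ∧ s = cls (Ω ≃ₐ[F] Ω) Ωˣ (cup 7 a χ)} ≤ ⊥ := by
    rw [Subgroup.closure_le]
    rintro s ⟨a, χ, ha, hχ, hχc, rfl⟩
    rw [SetLike.mem_coe, Subgroup.mem_bot]
    exact (cls_one_iff (hZ a χ ha hχ hχc)).mpr (hB a χ ha hχ hχc)
  exact Subgroup.mem_bot.mp (h1 hc)

theorem not_division_matrix {F D : Type u} [Field F] [DivisionRing D] [Algebra F D]
    (e : D ≃ₐ[F] Matrix (Fin 7) (Fin 7) F) : False := by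
  have h1 : e.symm (Matrix.single 0 1 1) * e.symm (Matrix.single 0 1 1) = 0 := by
    rw [← map_mul, Matrix.single_mul_single_of_ne (h := by decide), map_zero]
  have h2 : e.symm (Matrix.single 0 1 1) = 0 := by
    rcases mul_eq_zero.mp h1 with h | h <;> exact h
  have h3 : (Matrix.single 0 1 1 : Matrix (Fin 7) (Fin 7) F) = 0 := by
    have := congrArg e h2
    rwa [AlgEquiv.apply_symm_apply, map_zero] at this
  have h4 := congrFun (congrFun h3 0) 1
  rw [Matrix.single_apply_same] at h4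
  exact one_ne_zero h4

/-- The split case: if the factor set is a coboundary then A is the matrix algebra. -/
theorem split_of_B2 (hOp : RepOpStatement.{u, 0}) (hOne : RepOneStatement.{u}) (hConv : ConvStatement.{u, 0})
    {F Ω : Type u} [Field F] [Field Ω] [Algebra F Ω] [IsGalois F Ω] {A : Type u} [Ring A] [Algebra F A]
    {n : ℕ} (hn : n ≠ 0) {f : (Ω ≃ₐ[F] Ω) → (Ω ≃ₐ[F] Ω) → Ωˣ} (R : RepData F Ω A (Fin n) f)
    (hf : f ∈ B2 (Ω ≃ₐ[F] Ω) Ωˣ) : Nonempty (A ≃ₐ[F] Matrix (Fin n) (Fin n) F) := by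
  obtain ⟨R1⟩ := (hOp F Ω A (Fin n) f R).2.2.1 1 (by rw [inv_one, mul_one]; exact hf)
  obtain ⟨R2⟩ := hOne F Ω n hn
  exact hConv F Ω A _ (Fin n) 1 R1 R2

/-- Theorem T. -/
theorem finalT (hCohC : CohCStatement.{u}) (hCyc : CycZeroStatement.{u}) (hFin : FinBrStatement.{u})
    (hRepEx : RepExStatement.{u}) (hRepZ : RepZStatement.{u, 0}) (hOp : RepOpStatement.{u, 0})
    (hOne : RepOneStatement.{u}) (hConv : ConvStatement.{u, 0}) (hDiv : DivSevenStatement.{u})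
    (hGZ : GcupZStatement.{u}) (hDisc : DiscStatement.{u}) :
    ∀ (F : Type u) [Field F], (7 : F) ≠ 0 → Finite (BrauerGroup.{u, u} F) →
      ∀ (D : Type u) [DivisionRing D] [Algebra F D] [Algebra.IsCentral F D], Module.finrank F D ≠ 49 := by
  intro F _ h7 hBr D _ _ _ hD
  have : FiniteDimensional F D := Module.finite_of_finrank_pos (by rw [hD]; norm_num)
  obtain ⟨n, f, ⟨R⟩⟩ := hRepEx F (SeparableClosure F) D
  have hn : n = 7 := by
    have h1 := R.dim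
    rw [hD, Fintype.card_fin] at h1
    have h2 : n ^ 2 = 7 ^ 2 := by
      rw [← h1]
      norm_num
    exact Nat.pow_left_injective (by norm_num) h2
  subst hn
  have hZ := hRepZ F (SeparableClosure F) D (Fin 7) f R
  obtain ⟨H, hH, hI, hB⟩ := hDiv F (SeparableClosure F) h7 D f R
  have hC := hCohC F (SeparableClosure F) h7 f hZ H hH hI hB
  have h7' : ((7 : ℕ) : SeparableClosure F) ≠ 0 := by
    have h8 : ((7 : ℕ) : SeparableClosure F) = algebraMap F (SeparableClosure F) 7 := by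
      rw [Nat.cast_ofNat]
      exact (map_ofNat (algebraMap F (SeparableClosure F)) 7).symm
    rw [h8]
    exact (map_ne_zero (algebraMap F (SeparableClosure F))).mpr h7
  have : NeZero ((7 : ℕ) : SeparableClosure F) := ⟨h7'⟩
  obtain ⟨z, hz⟩ := HasEnoughRootsOfUnity.exists_primitiveRoot (SeparableClosure F) 7
  have hz0 : z ≠ 0 := hz.ne_zero (by norm_num)
  have hζ : IsPrimitiveRoot (Units.mk0 z hz0) 7 := by
    rw [← IsPrimitiveRoot.coe_units_iff]
    exact hz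
  obtain ⟨κ, hκ⟩ := kappa_of_finite (hFin F hBr)
  have hcy := hCyc F (SeparableClosure F) _ hζ κ hκ
  have hc1 := closure_cyc_trivial (fun a χ ha hχ hχc => cupResZ hGZ hDisc F _ a χ ha hχ hχc) hcy _ hC
  rw [cls_one_iff hZ] at hc1
  obtain ⟨e⟩ := split_of_B2 hOp hOne hConv (by norm_num) R hc1
  exact not_division_matrix e

end BR7.H50
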