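import Pool.Agent.Lib.MP_defcf3_al.BR.StageE
import Pool.Agent.Lib.MP_defcf3_al.BR.H50.FinalT

/-! Final assembly, Brumer-Rosen alternative. -/

open scoped TensorProduct

namespace BR7.H50

universe u

open BR7

theorem exists_zeta (F : Type u) [Field F] (h7 : (7 : F) ≠ 0) :
    ∃ ζ : (SeparableClosure F)ˣ, IsPrimitiveRoot ζ 7 := by
  have h7' : ((7 : ℕ) : SeparableClosure F) ≠ 0 := by
    have h8 : ((7 : ℕ) : SeparableClosure F) = algebraMap F (SeparableClosure F) 7 := by
      rw [Nat.cast_ofNat]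
      exact (map_ofNat (algebraMap F (SeparableClosure F)) 7).symm
    rw [h8]
    exact (map_ne_zero (algebraMap F (SeparableClosure F))).mpr h7
  have : NeZero ((7 : ℕ) : SeparableClosure F) := ⟨h7'⟩
  obtain ⟨z, hz⟩ := HasEnoughRootsOfUnity.exists_primitiveRoot (SeparableClosure F) 7
  have hz0 : z ≠ 0 := hz.ne_zero (by norm_num)
  refine ⟨Units.mk0 z hz0, ?_⟩
  rw [← IsPrimitiveRoot.coe_units_iff]
  exact hz

/-- A central division algebra of degree 7 forces a quasicyclic subgroup. -/
theorem finalD (hCohC : CohCStatement.{u}) (hCD : CycDivStatement.{u})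
    (hRepEx : RepExStatement.{u}) (hRepZ : RepZStatement.{u, 0}) (hOp : RepOpStatement.{u, 0})
    (hOne : RepOneStatement.{u}) (hConv : ConvStatement.{u, 0}) (hDiv : DivSevenStatement.{u})
    (hGZ : GcupZStatement.{u}) (hDisc : DiscStatement.{u}) :
    ∀ (F : Type u) [Field F], (7 : F) ≠ 0 →
      ∀ (D : Type u) [DivisionRing D] [Algebra F D] [Algebra.IsCentral F D], Module.finrank F D = 49 →
      HasQuasi F (SeparableClosure F) := by
  intro F _ h7 D _ _ _ hD
  by_contra hno
  have : FiniteDimensional F D := Module.finite_of_finrank_pos (by rw [hD]; norm_num)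
  obtain ⟨n, f, ⟨R⟩⟩ := hRepEx F (SeparableClosure F) D
  have hn : n = 7 := by
    have h1 := R.dim
    rw [hD, Fintype.card_fin] at h1
    have h2 : n ^ 2 = 7 ^ 2 := by
      rw [← h1]
      norm_num
    exact Nat.pow_left_injective (by norm_num) h2
  subst hn
  have hZ := hRepZ F (SeparableClosure F) D (Fin 7) f R
  obtain ⟨H, hH, hI, hB⟩ := hDiv F (SeparableClosure F) h7 D f R
  have hC := hCohC F (SeparableClosure F) h7 f hZ H hH hI hB
  obtain ⟨ζ, hζ⟩ := exists_zeta F h7
  have hcy : ∀ (a : (SeparableClosure F)ˣ) (χ : (SeparableClosure F ≃ₐ[F] SeparableClosure F) → ZMod 7),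
      InF F a → (∀ g h, χ (g * h) = χ g + χ h) → IsLocallyConstant χ →
      cup 7 a χ ∈ B2 (SeparableClosure F ≃ₐ[F] SeparableClosure F) (SeparableClosure F)ˣ := by
    intro a χ ha hχ hχc
    by_contra hne
    exact hno (hCD F (SeparableClosure F) ζ hζ a χ ha hχ hχc hne)
  have hc1 := closure_cyc_trivial (fun a χ ha hχ hχc => cupResZ hGZ hDisc F _ a χ ha hχ hχc) hcy _ hC
  rw [cls_one_iff hZ] at hc1
  obtain ⟨e⟩ := split_of_B2 hOp hOne hConv (by norm_num) R hc1
  exact not_division_matrix e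

end BR7.H50
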