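import Pool.Agent.Lib.MP_defcf3_al.BR.StageI

/-! REPONE, REPOP. -/

namespace BR7.H50

universe u v

open BR7

theorem map_one' {F Ω : Type u} [Field F] [Field Ω] [Algebra F Ω] {n : Type v} [Fintype n] [DecidableEq n]
    (g : Ω ≃ₐ[F] Ω) : (1 : Matrix n n Ω).map g = 1 :=
  Matrix.map_one _ (map_zero g) (map_one g)

theorem span_top_of {Ω : Type u} [Field Ω] {n : Type v} [Fintype n] [DecidableEq n]
    (S : Submodule Ω (Matrix n n Ω)) (h : ∀ i j, Matrix.single i j (1 : Ω) ∈ S) : S = ⊤ := by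
  rw [eq_top_iff]
  intro M _
  rw [Matrix.matrix_eq_sum_single M]
  refine Submodule.sum_mem _ fun i _ => Submodule.sum_mem _ fun j _ => ?_
  have : Matrix.single i j (M i j) = (M i j) • Matrix.single i j (1 : Ω) := by
    rw [Matrix.smul_single, smul_eq_mul, mul_one]
  rw [this]
  exact Submodule.smul_mem _ _ (h i j)

/-- REPONE. -/
theorem repone : RepOneStatement.{u} := by
  intro F Ω _ _ _ n hn
  refine ⟨{
    ι := (Algebra.ofId F Ω).mapMatrix
    u := fun _ => 1
    ne := ⟨⟨0, Nat.pos_of_ne_zero hn⟩⟩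
    dim := ?_
    span := ?_
    lc := IsLocallyConstant.const 1
    tw := ?_
    fac := ?_ }⟩
  · rw [Module.finrank_matrix, Module.finrank_self, mul_one, sq]
  · apply span_top_of
    intro i j
    refine Submodule.subset_span ⟨Matrix.single i j 1, ?_⟩
    rw [AlgHom.mapMatrix_apply]
    ext a b
    rw [Matrix.map_apply]
    by_cases h : i = a ∧ j = b
    · obtain ⟨rfl, rfl⟩ := h
      simp
    · rw [Matrix.single_apply_of_ne _ _ _ _ _ h, Matrix.single_apply_of_ne _ _ _ _ _ h, map_zero]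
  · intro g a
    rw [inv_one, Units.val_one, one_mul, mul_one, AlgHom.mapMatrix_apply, Matrix.map_map]
    ext i j
    rw [Matrix.map_apply, Matrix.map_apply]
    exact g.commutes _
  · intro g h
    rw [Units.val_one, map_one', one_mul, Pi.one_apply, Pi.one_apply, Units.val_one, one_smul]

section Ops

variable {F Ω : Type u} [Field F] [Field Ω] [Algebra F Ω] {A : Type u} [Ring A] [Algebra F A]
  {n : Type v} [Fintype n] [DecidableEq n] {f : (Ω ≃ₐ[F] Ω) → (Ω ≃ₐ[F] Ω) → Ωˣ}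

/-- Transport along an isomorphism of matrix algebras commuting with entrywise maps. -/
noncomputable def repMap {m : Type*} [Fintype m] [DecidableEq m] [Nonempty m] (R : RepData F Ω A n f)
    (φ : Matrix n n Ω ≃ₐ[Ω] Matrix m m Ω) (hc : Fintype.card n = Fintype.card m)
    (hφ : ∀ (g : Ω ≃ₐ[F] Ω) (M : Matrix n n Ω), φ (M.map g) = (φ M).map g) : RepData F Ω A m f where
  ι := ((φ.restrictScalars F : Matrix n n Ω ≃ₐ[F] Matrix m m Ω) : Matrix n n Ω →ₐ[F] Matrix m m Ω).comp R.ι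
  u := fun g => Units.map (φ : Matrix n n Ω →* Matrix m m Ω) (R.u g)
  ne := inferInstance
  dim := by rw [R.dim, hc]
  span := by
    have h1 : Submodule.map φ.toLinearMap (Submodule.span Ω (Set.range R.ι)) = ⊤ := by
      rw [R.span, Submodule.map_top, LinearMap.range_eq_top]
      exact φ.surjective
    rw [Submodule.map_span, ← Set.range_comp] at h1
    exact h1
  lc := R.lc.comp _
  tw := fun g a => by
    change (φ (R.ι a)).map g = φ ((↑(R.u g)⁻¹ : Matrix n n Ω)) * φ (R.ι a) * φ (R.u g : Matrix n n Ω)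
    rw [← hφ, R.tw, map_mul, map_mul]
  fac := fun g h => by
    change φ (R.u g : Matrix n n Ω) * (φ (R.u h : Matrix n n Ω)).map g =
      (f g h : Ω) • φ (R.u (g * h) : Matrix n n Ω)
    rw [← hφ, ← map_mul, R.fac, map_smul]

/-- Change of algebra. -/
noncomputable def repAlg {B : Type u} [Ring B] [Algebra F B] (R : RepData F Ω A n f) (e : A ≃ₐ[F] B) :
    RepData F Ω B n f where
  ι := R.ι.comp (e.symm : B →ₐ[F] A)
  u := R.u
  ne := R.ne
  dim := by rw [← R.dim]; exact e.symm.toLinearEquiv.finrank_eq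
  span := by
    have h1 : Set.range (R.ι.comp (e.symm : B →ₐ[F] A)) = Set.range R.ι := by
      ext M
      constructor
      · rintro ⟨b, rfl⟩
        exact ⟨e.symm b, rfl⟩
      · rintro ⟨a, rfl⟩
        exact ⟨e a, by simp⟩
    rw [h1, R.span]
  lc := R.lc
  tw := fun g b => R.tw g (e.symm b)
  fac := R.fac

/-- Change of cocycle. -/
noncomputable def repTw (R : RepData F Ω A n f) (f' : (Ω ≃ₐ[F] Ω) → (Ω ≃ₐ[F] Ω) → Ωˣ)
    (b : (Ω ≃ₐ[F] Ω) → Ωˣ) (hb : IsLocallyConstant b)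
    (hf : ∀ g h, (f * f'⁻¹) g h = b g * (g • b h) * (b (g * h))⁻¹) : RepData F Ω A n f' where
  ι := R.ι
  u := fun g => (b g)⁻¹ • R.u g
  ne := R.ne
  dim := R.dim
  span := R.span
  lc := by
    have h1 : IsLocallyConstant (fun g => ((b g, R.u g) : Ωˣ × (Matrix n n Ω)ˣ)) := hb.prodMk R.lc
    exact h1.comp (fun x : Ωˣ × (Matrix n n Ω)ˣ => x.1⁻¹ • x.2)
  tw := fun g a => by
    rw [R.tw]
    have h1 : (((b g)⁻¹ • R.u g : (Matrix n n Ω)ˣ)⁻¹ : (Matrix n n Ω)ˣ) = (b g) • (R.u g)⁻¹ := by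
      apply inv_eq_of_mul_eq_one_right
      apply Units.ext
      rw [Units.val_mul, Units.val_smul, Units.val_smul, smul_mul_smul_comm, inv_mul_cancel, one_smul,
        Units.mul_inv, Units.val_one]
    rw [h1, Units.val_smul, Units.val_smul, smul_mul_assoc, smul_mul_assoc, mul_smul_comm, smul_inv_smul]
  fac := fun g h => by
    rw [Units.val_smul, Units.val_smul, Units.val_smul]
    have h1 : ((b h)⁻¹ • (R.u h : Matrix n n Ω)).map g = (g • (b h))⁻¹ • (R.u h : Matrix n n Ω).map g := by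
      ext i j
      rw [Matrix.map_apply, Matrix.smul_apply, Matrix.smul_apply, Matrix.map_apply, Units.smul_def,
        Units.smul_def, smul_eq_mul, smul_eq_mul, map_mul]
      congr 1
    rw [h1, smul_mul_assoc, mul_smul_comm, R.fac]
    have h2 := hf g h
    rw [Pi.mul_apply, Pi.mul_apply, Pi.inv_apply, Pi.inv_apply, mul_inv_eq_iff_eq_mul] at h2
    have h3 : ∀ x y z w : Ωˣ, x⁻¹ * (y⁻¹ * (x * y * z⁻¹ * w)) = w * z⁻¹ := by
      intro x y z w
      have h4 : x * y * z⁻¹ * w = y * (x * (z⁻¹ * w)) := by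
        rw [mul_comm x y]
        simp only [mul_assoc]
      rw [h4, inv_mul_cancel_left, inv_mul_cancel_left, mul_comm]
    change (b g)⁻¹ • ((g • b h)⁻¹ • ((f g h) • (R.u (g * h) : Matrix n n Ω))) =
      (f' g h) • ((b (g * h))⁻¹ • (R.u (g * h) : Matrix n n Ω))
    rw [smul_smul, smul_smul, smul_smul, mul_assoc, h2, h3]

/-- Block diagonal matrices. -/
noncomputable def blockU (Ω : Type u) [Field Ω] (n : Type v) [Fintype n] [DecidableEq n] (p : ℕ)
    (x : (Matrix n n Ω)ˣ) : (Matrix (Fin p × n) (Fin p × n) Ω)ˣ :=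
  Units.map ((Matrix.compAlgEquiv (Fin p) n Ω Ω :
    Matrix (Fin p) (Fin p) (Matrix n n Ω) ≃ₐ[Ω] Matrix (Fin p × n) (Fin p × n) Ω) :
      Matrix (Fin p) (Fin p) (Matrix n n Ω) →* Matrix (Fin p × n) (Fin p × n) Ω)
    (Units.map ((Matrix.scalar (Fin p) : Matrix n n Ω →+* Matrix (Fin p) (Fin p) (Matrix n n Ω)) :
      Matrix n n Ω →* Matrix (Fin p) (Fin p) (Matrix n n Ω)) x)

/-- Matrices over A. -/
noncomputable def repMat (R : RepData F Ω A n f) (p : ℕ) (hp : p ≠ 0) :
    RepData F Ω (Matrix (Fin p) (Fin p) A) (Fin p × n) f where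
  ι := (((Matrix.compAlgEquiv (Fin p) n Ω Ω).restrictScalars F :
    Matrix (Fin p) (Fin p) (Matrix n n Ω) ≃ₐ[F] Matrix (Fin p × n) (Fin p × n) Ω) :
    Matrix (Fin p) (Fin p) (Matrix n n Ω) →ₐ[F] Matrix (Fin p × n) (Fin p × n) Ω).comp R.ι.mapMatrix
  u := fun g => blockU Ω n p (R.u g)
  ne := by
    have := R.ne
    exact ⟨⟨⟨0, Nat.pos_of_ne_zero hp⟩, this.some⟩⟩
  dim := by
    rw [Module.finrank_matrix, R.dim, Fintype.card_prod, Fintype.card_fin]
    ring
  span := by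
    apply span_top_of
    rintro ⟨a, i⟩ ⟨b, j⟩
    have h1 : Submodule.map (((Matrix.compAlgEquiv (Fin p) n Ω Ω :
      Matrix (Fin p) (Fin p) (Matrix n n Ω) ≃ₐ[Ω] Matrix (Fin p × n) (Fin p × n) Ω)).toLinearMap ∘ₗ
      Matrix.singleLinearMap Ω a b) (Submodule.span Ω (Set.range R.ι)) ≤
      Submodule.span Ω (Set.range ((((Matrix.compAlgEquiv (Fin p) n Ω Ω).restrictScalars F :
    Matrix (Fin p) (Fin p) (Matrix n n Ω) ≃ₐ[F] Matrix (Fin p × n) (Fin p × n) Ω) :
    Matrix (Fin p) (Fin p) (Matrix n n Ω) →ₐ[F] Matrix (Fin p × n) (Fin p × n) Ω).comp R.ι.mapMatrix)) := by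
      rw [Submodule.map_span, Submodule.span_le]
      rintro _ ⟨_, ⟨x, rfl⟩, rfl⟩
      refine Submodule.subset_span ⟨Matrix.single a b x, ?_⟩
      change Matrix.comp _ _ _ _ _ (R.ι.mapMatrix (Matrix.single a b x)) =
        Matrix.comp _ _ _ _ _ (Matrix.single a b (R.ι x))
      congr 1
      rw [AlgHom.mapMatrix_apply]
      exact Matrix.map_single _ _ _ _
    apply h1
    rw [R.span]
    refine ⟨Matrix.single i j 1, trivial, ?_⟩
    change Matrix.comp _ _ _ _ _ (Matrix.single a b (Matrix.single i j 1)) = _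
    exact Matrix.comp_single_single _ _ _ _ _
  lc := R.lc.comp (blockU Ω n p)
  tw := fun g X => by
    change (Matrix.comp _ _ _ _ _ (R.ι.mapMatrix X)).map g =
      (Matrix.compAlgEquiv (Fin p) n Ω Ω) (Matrix.scalar (Fin p) (↑(R.u g)⁻¹ : Matrix n n Ω)) *
      (Matrix.compAlgEquiv (Fin p) n Ω Ω) (R.ι.mapMatrix X) *
      (Matrix.compAlgEquiv (Fin p) n Ω Ω) (Matrix.scalar (Fin p) (R.u g : Matrix n n Ω))
    rw [← map_mul, ← map_mul, ← Matrix.comp_map_map]
    change Matrix.comp _ _ _ _ _ _ = Matrix.comp _ _ _ _ _ _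
    congr 1
    refine Matrix.ext fun a b => ?_
    rw [Matrix.map_apply, AlgHom.mapMatrix_apply, Matrix.map_apply, R.tw]
    rw [Matrix.scalar_apply, Matrix.scalar_apply, Matrix.mul_diagonal, Matrix.diagonal_mul, Matrix.map_apply]
  fac := fun g h => by
    change (Matrix.compAlgEquiv (Fin p) n Ω Ω) (Matrix.scalar (Fin p) (R.u g : Matrix n n Ω)) *
      (Matrix.comp _ _ _ _ _ (Matrix.scalar (Fin p) (R.u h : Matrix n n Ω))).map g =
      (f g h : Ω) • (Matrix.compAlgEquiv (Fin p) n Ω Ω) (Matrix.scalar (Fin p) (R.u (g * h) : Matrix n n Ω))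
    rw [← Matrix.comp_map_map]
    have h1 : (Matrix.scalar (Fin p) (R.u h : Matrix n n Ω)).map (fun M' => M'.map g) =
        Matrix.scalar (Fin p) ((R.u h : Matrix n n Ω).map g) := by
      rw [Matrix.scalar_apply, Matrix.scalar_apply, Matrix.diagonal_map]
      exact Matrix.map_zero _ (map_zero g)
    rw [h1]
    change (Matrix.compAlgEquiv (Fin p) n Ω Ω) (Matrix.scalar (Fin p) (R.u g : Matrix n n Ω)) *
      (Matrix.compAlgEquiv (Fin p) n Ω Ω) (Matrix.scalar (Fin p) ((R.u h : Matrix n n Ω).map g)) = _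
    rw [← map_mul, ← map_mul, R.fac, ← map_smul]
    congr 1
    refine Matrix.ext fun a b => ?_
    rw [Matrix.scalar_apply, Matrix.scalar_apply, Matrix.smul_apply]
    by_cases hab : a = b
    · subst hab
      rw [Matrix.diagonal_apply_eq, Matrix.diagonal_apply_eq]
    · rw [Matrix.diagonal_apply_ne _ hab, Matrix.diagonal_apply_ne _ hab, smul_zero]

end Ops

/-- REPOP. -/
theorem repop : RepOpStatement.{u, v} := by
  intro F Ω _ _ _ _ A _ _ n _ _ f R
  refine ⟨?_, ?_, ?_, ?_⟩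
  · intro m _ _ e
    have := R.ne
    have : Nonempty m := e.symm.nonempty
    exact ⟨repMap R (Matrix.reindexAlgEquiv Ω Ω e) (Fintype.card_congr e) (fun g M => rfl)⟩
  · intro B _ _ e
    exact ⟨repAlg R e⟩
  · rintro f' ⟨b, hb, hf⟩
    exact ⟨repTw R f' b hb hf⟩
  · intro p hp
    have := R.ne
    have : Nonempty (Fin p) := ⟨⟨0, Nat.pos_of_ne_zero hp⟩⟩
    exact ⟨repMap (repMat R p hp) (Matrix.reindexAlgEquiv Ω Ω (Equiv.prodComm (Fin p) n))
      (Fintype.card_congr (Equiv.prodComm (Fin p) n)) (fun g M => rfl)⟩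

end BR7.H50
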