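import Pool.Agent.Lib.MP_defcf3_al.BR.H50.Full
import Pool.Agent.Lib.MP_defcf3_al.BR.H50.FinalC
import Pool.Agent.Lib.MP_defcf3_al.BR.H50.RepOp
import Pool.Agent.Lib.MP_defcf3_al.BR.H38.SymX
import Pool.Agent.Lib.MP_defcf3_al.BR.H38.SymX2
import Pool.Agent.Lib.MP_defcf3_al.BR.H38.Splx
import Pool.Agent.Lib.MP_defcf3_al.BR.H38.TrivC
import Pool.Agent.Lib.MP_defcf3_al.BR.H38.FinBr
import Pool.Agent.Lib.MP_defcf3_al.BR.H78.Lag
import Pool.Agent.Lib.MP_defcf3_al.BR.H78.Syl
import Pool.Agent.Lib.MP_defcf3_al.BR.H65.RT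
import Pool.Agent.Lib.MP_defcf3_al.BR.H65.Uniq
import Pool.Agent.Lib.MP_defcf3_al.BR.H92.Sevsym
import Pool.Agent.Lib.MP_defcf3_al.BR.H92.Galdesc
import Pool.Agent.Lib.MP_defcf3_al.BR.H79.DegSeven
import Pool.Agent.Lib.MP_defcf3_al.BR.H79.DivSeven
import Pool.Agent.Lib.MP_defcf3_al.BR.H79.Factor
import Pool.Agent.Lib.MP_defcf3_al.BR.H79.RepCSA
import Pool.Agent.Lib.MP_defcf3_al.BR.H32.RepZ
import Pool.Agent.Lib.MP_defcf3_al.BR.H32.Desc
import Pool.Agent.Lib.MP_defcf3_al.BR.H32.CycAlg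
import Pool.Agent.Lib.MP_defcf3_al.BR.H32.SkoNo
import Pool.Agent.Lib.MP_defcf3_al.BR.H19.Conv
import Pool.Agent.Lib.MP_defcf3_al.BR.H19.Pi
import Pool.Agent.Lib.MP_defcf3_al.BR.H46.BaseSimple
import Pool.Agent.Lib.MP_defcf3_al.BR.H46.RepEx

/-! All modules of the second stage put together. -/

open scoped TensorProduct

namespace BR7.H50.Full

universe u

open BR7

theorem rt : RTStatement.{u} := H65.rt H38.sxadd H38.sxpush H38.sxstein H38.sxident H38.sxmul H78.lag

theorem sevsym : SevenSymStatement.{u} := H92.sevsym H78.syl H38.kumsurj H38.corcup rt H38.kumx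

theorem trivc : TrivCStatement.{u} := H38.trivc H38.gtrans kum H4.disc

theorem mainc : MainCStatement.{u} :=
  H50.mainc sadd sstein snorm skum sgal trivc H4.disc H38.conjc (H38.conjres H38.bz)
    (H50.cupResZ H38.gz H4.disc) H50.hone
    (H50.htwo H50.gen H22.rel) (H50.hthree H50.gen H22.rel) hsix

theorem cohs : CohSStatement.{u} := H50.cohs mainc H38.corres H38.index H4.disc H38.gz H38.gtors

theorem cohc : CohCStatement.{u} := H50.cohc cohs sevsym H38.corres H4.disc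

theorem desc : DescStatement.{u} := H32.desc H92.galdesc

theorem uniq : UniqStatement.{u} := H65.uniq H32.skono H50.repop

theorem finbr : FinBrStatement.{u} := H38.finbr H79.factor desc H79.repcsa uniq

theorem conv : ConvStatement.{u, 0} := H19.conv H92.galdesc H79.repcsa

theorem cycalg : CycAlgStatement.{u} := H32.cycalg desc

theorem repex : RepExStatement.{u} := H46.repex H46.sepsplit H46.basesimple H32.skono

theorem finalT :
    ∀ (F : Type u) [Field F], (7 : F) ≠ 0 → Finite (BrauerGroup.{u, u} F) →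
      ∀ (D : Type u) [DivisionRing D] [Algebra F D] [Algebra.IsCentral F D], Module.finrank F D ≠ 49 :=
  H50.finalT cohc cycz finbr repex H32.repz H50.repop H50.repone conv H79.divseven H38.gz H4.disc

theorem finalC :
    ∀ (F : Type u) [Field F], (7 : F) ≠ 0 →
      ∀ (D : Type u) [DivisionRing D] [Algebra F D] [Algebra.IsCentral F D], Module.finrank F D = 49 →
      ∃ (k : ℕ) (B : Fin k → Type u) (_ : ∀ i, Ring (B i)) (_ : ∀ i, Algebra F (B i)), k ≠ 0 ∧
        (∀ i, Algebra.IsCentral F (B i) ∧ Module.finrank F (B i) = 49 ∧ (∀ b : B i, b ≠ 0 → IsUnit b) ∧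
          ∃ (K : Type u) (_ : Field K) (_ : Algebra F K), IsGalois F K ∧ Module.finrank F K = 7 ∧
            Nonempty (K →ₐ[F] B i)) ∧
        ∃ p q : ℕ, p ≠ 0 ∧ q ≠ 0 ∧
          Nonempty (Matrix (Fin p) (Fin p) D ≃ₐ[F] Matrix (Fin q) (Fin q) (⨂[F] i, B i)) :=
  H50.finalC cohc repex H32.repz H50.repop H50.repone conv H79.divseven H38.gz H4.disc H19.pi cycalg
    H79.repcsa H79.degseven uniq

end BR7.H50.Full
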