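import Pool.Agent.Lib.MP_defcf3_al.BR.H50.Full2
import Pool.Agent.Lib.MP_defcf3_al.BR.H50.Cycdiv
import Pool.Agent.Lib.MP_defcf3_al.BR.H50.Seq
import Pool.Agent.Lib.MP_defcf3_al.BR.H50.FinalD
import Pool.Agent.Lib.MP_defcf3_al.BR.H59.Corn
import Pool.Agent.Lib.MP_defcf3_al.BR.H30.CornRes
import Pool.Agent.Lib.MP_defcf3_al.BR.H10.Cornmod
import Pool.Agent.Lib.MP_defcf3_al.BR.H72.Eta
import Pool.Agent.Lib.MP_defcf3_al.BR.H72.H90Cyc
import Pool.Agent.Lib.MP_defcf3_al.BR.H72.QuasiA
import Pool.Agent.Lib.MP_defcf3_al.BR.H72.QuasiB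
import Pool.Agent.Lib.MP_defcf3_al.BR.H62.Tower

/-! All modules of the third stage put together. -/

open scoped TensorProduct

namespace BR7.H50.Full

universe u

open BR7

theorem tower : TowerStatement.{u} := H62.tower H38.kumsurj H38.index H4.disc H4.dlog

theorem cycdiv : CycDivStatement.{u} :=
  H50.cycdiv H38.gadd H38.gcob H38.gtors H59.corn (H30.cornres H38.push H38.gchar H38.gadd H38.gcob)
    (H10.cornmod H38.gmod) (H72.h90cyc H22.h90) H72.eta tower (H72.quasia H38.gmod H38.gz H4.disc)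
    H72.quasib H84.nconv H4.disc H22.h90 H38.index

theorem seq : SeqStatement.{u} := H50.seq H79.factor desc H50.repop H50.repone conv H19.pi H79.repcsa uniq

theorem finalD : ∀ (F : Type u) [Field F], (7 : F) ≠ 0 →
      ∀ (D : Type u) [DivisionRing D] [Algebra F D] [Algebra.IsCentral F D], Module.finrank F D = 49 →
      HasQuasi F (SeparableClosure F) :=
  H50.finalD cohc cycdiv repex H32.repz H50.repop H50.repone conv H79.divseven H38.gz H4.disc

end BR7.H50.Full
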