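import Pool.Agent.Lib.MP_defcf3_al.BR.H50.Full3
import Pool.Agent.Lib.MP_defcf3_al.BR.H50.FinalE
import Pool.Agent.Lib.MP_defcf3_al.BR.H38.BaseL
import Pool.Agent.Lib.MP_defcf3_al.BR.H38.CycFac
import Pool.Agent.Lib.MP_defcf3_al.BR.H38.Det
import Pool.Agent.Lib.MP_defcf3_al.BR.H62.Ltrans

/-! All modules of the fourth stage put together. -/

open scoped TensorProduct

namespace BR7.H50.Full

universe u

open BR7

theorem finalE : ∀ (F L : Type u) [Field F] [Field L] [Algebra F L], (7 : F) ≠ 0 →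
      IsCyclotomicExtension {7} F L →
      ∀ (A : Type u) [Ring A] [Algebra F A] [Algebra.IsCentral F A] [IsSimpleRing A] (m : ℕ),
      Module.finrank F A = 49 ^ m →
      ∀ (k : ℕ) (B : Fin k → Type u) [∀ i, Ring (B i)] [∀ i, Algebra L (B i)],
      (∀ i, Algebra.IsCentral L (B i) ∧ IsSimpleRing (B i) ∧ Module.finrank L (B i) = 49 ∧
        ∃ (K : Type u) (_ : Field K) (_ : Algebra L K), IsGalois L K ∧ Module.finrank L K = 7 ∧
          Nonempty (K →ₐ[L] B i)) →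
      (∃ p q : ℕ, p ≠ 0 ∧ q ≠ 0 ∧
        Nonempty (Matrix (Fin p) (Fin p) (L ⊗[F] A) ≃ₐ[L] Matrix (Fin q) (Fin q) (⨂[L] i, B i))) →
      ∃ (l : ℕ) (C : Fin l → Type u) (_ : ∀ i, Ring (C i)) (_ : ∀ i, Algebra F (C i)),
        (∀ i, Algebra.IsCentral F (C i) ∧ Module.finrank F (C i) = 49 ∧ (∀ b : C i, b ≠ 0 → IsUnit b) ∧
          ∃ (K : Type u) (_ : Field K) (_ : Algebra F K), IsGalois F K ∧ Module.finrank F K = 7 ∧
            Nonempty (K →ₐ[F] C i)) ∧
        ∃ p q : ℕ, p ≠ 0 ∧ q ≠ 0 ∧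
          Nonempty (Matrix (Fin p) (Fin p) A ≃ₐ[F] Matrix (Fin q) (Fin q) (⨂[F] i, C i)) :=
  H50.finalE cohs H38.cycfac H38.det H38.basel (H62.ltrans H38.kumsurj kum H38.gz H4.disc H4.dlog) sadd
    H38.corres H38.index H46.basesimple repex H32.repz H50.repop H50.repone conv H38.gz H4.disc H19.pi
    cycalg H79.repcsa H79.degseven uniq

end BR7.H50.Full
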