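import Pool.Agent.Lib.MP_defcf3_al.BR.Base

/-! Preparations for KEY: the function M(θ) and its behaviour. -/

namespace BR7.H50

universe u

open BR7

variable {Ω : Type u} [Field Ω]

/-- The seven conjugates as a function of θ. -/
def MM (z X0 X1 X2 Y0 Y1 Y2 θ : Ω) (j : ZMod 7) : Ω :=
  mm z θ (X0 * θ ^ 2) (X1 * (X0 * θ ^ 2) ^ 2) (Y0 / (θ * (X0 * X1 * X2)))
    (Y1 / (X0 * θ ^ 2 * (X0 * X1 * X2))) (Y2 / (X1 * (X0 * θ ^ 2) ^ 2 * (X0 * X1 * X2))) j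

theorem pow_val_add {z : Ω} (hz : z ^ 7 = 1) (a b : ZMod 7) :
    z ^ (a + b).val = z ^ a.val * z ^ b.val := by
  rw [← pow_add, ZMod.val_add]
  have h := Nat.mod_add_div (a.val + b.val) 7
  conv_rhs => rw [← h]
  rw [pow_add, pow_mul, hz, one_pow, mul_one]

theorem MM_shift {z : Ω} (hz : z ^ 7 = 1) (X0 X1 X2 Y0 Y1 Y2 θ : Ω) (j : ZMod 7) :
    MM z X0 X1 X2 Y0 Y1 Y2 (z * θ) j = MM z X0 X1 X2 Y0 Y1 Y2 θ (j + 1) := by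
  have hz0 : z ≠ 0 := by
    rintro rfl
    simp at hz
  have e1 : z ^ (j + 1).val = z ^ j.val * z := by
    rw [pow_val_add hz]; congr 1; exact pow_one z
  have e2 : z ^ (2 * (j + 1)).val = z ^ (2 * j).val * z ^ 2 := by
    rw [mul_add, mul_one, pow_val_add hz]; rfl
  have e4 : z ^ (4 * (j + 1)).val = z ^ (4 * j).val * z ^ 4 := by
    rw [mul_add, mul_one, pow_val_add hz]; rfl
  have e6 : z ^ (6 * (j + 1)).val = z ^ (6 * j).val * z ^ 6 := by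
    rw [mul_add, mul_one, pow_val_add hz]; rfl
  have e5 : z ^ (5 * (j + 1)).val = z ^ (5 * j).val * z ^ 5 := by
    rw [mul_add, mul_one, pow_val_add hz]; rfl
  have e3 : z ^ (3 * (j + 1)).val = z ^ (3 * j).val * z ^ 3 := by
    rw [mul_add, mul_one, pow_val_add hz]; rfl
  have i1 : z⁻¹ = z ^ 6 := by
    rw [inv_eq_iff_eq_inv, eq_comm, inv_eq_of_mul_eq_one_left]
    rw [← pow_succ']; exact hz
  have i2 : (z ^ 2)⁻¹ = z ^ 5 := by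
    apply inv_eq_of_mul_eq_one_left
    rw [← pow_add]; exact hz
  have i4 : (z ^ 4)⁻¹ = z ^ 3 := by
    apply inv_eq_of_mul_eq_one_left
    rw [← pow_add]; exact hz
  unfold MM mm
  rw [e1, e2, e4, e6, e5, e3]
  have a1 : X0 * (z * θ) ^ 2 = z ^ 2 * (X0 * θ ^ 2) := by ring
  have a2 : X1 * (z ^ 2 * (X0 * θ ^ 2)) ^ 2 = z ^ 4 * (X1 * (X0 * θ ^ 2) ^ 2) := by ring
  rw [a1, a2]
  have b0 : Y0 / (z * θ * (X0 * X1 * X2)) = z ^ 6 * (Y0 / (θ * (X0 * X1 * X2))) := by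
    rw [mul_assoc, div_mul_eq_div_div_swap, div_eq_mul_inv _ z, i1]; ring
  have b1 : Y1 / (z ^ 2 * (X0 * θ ^ 2) * (X0 * X1 * X2)) =
      z ^ 5 * (Y1 / (X0 * θ ^ 2 * (X0 * X1 * X2))) := by
    rw [mul_assoc (z ^ 2), div_mul_eq_div_div_swap, div_eq_mul_inv _ (z ^ 2), i2]; ring
  have b2 : Y2 / (z ^ 4 * (X1 * (X0 * θ ^ 2) ^ 2) * (X0 * X1 * X2)) =
      z ^ 3 * (Y2 / (X1 * (X0 * θ ^ 2) ^ 2 * (X0 * X1 * X2))) := by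
    rw [mul_assoc (z ^ 4), div_mul_eq_div_div_swap, div_eq_mul_inv _ (z ^ 4), i4]; ring
  rw [b0, b1, b2]
  ring

theorem MM_prod_shift {z : Ω} (hz : z ^ 7 = 1) (X0 X1 X2 Y0 Y1 Y2 θ : Ω) :
    ∏ j, MM z X0 X1 X2 Y0 Y1 Y2 (z * θ) j = ∏ j, MM z X0 X1 X2 Y0 Y1 Y2 θ j := by
  simp only [MM_shift hz]
  exact Fintype.prod_equiv (Equiv.addRight (1 : ZMod 7)) _ _ (fun j => rfl)

theorem MM_prod_pow {z : Ω} (hz : z ^ 7 = 1) (X0 X1 X2 Y0 Y1 Y2 θ : Ω) (e : ℕ) :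
    ∏ j, MM z X0 X1 X2 Y0 Y1 Y2 (z ^ e * θ) j = ∏ j, MM z X0 X1 X2 Y0 Y1 Y2 θ j := by
  induction e with
  | zero => simp
  | succ e ih =>
    rw [pow_succ', mul_assoc, MM_prod_shift hz, ih]

theorem MM_map (g : Ω ≃+* Ω) {z X0 X1 X2 Y0 Y1 Y2 : Ω} (hz : g z = z) (h0 : g X0 = X0) (h1 : g X1 = X1)
    (h2 : g X2 = X2) (k0 : g Y0 = Y0) (k1 : g Y1 = Y1) (k2 : g Y2 = Y2) (θ : Ω) (j : ZMod 7) :
    g (MM z X0 X1 X2 Y0 Y1 Y2 θ j) = MM z X0 X1 X2 Y0 Y1 Y2 (g θ) j := by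
  unfold MM mm
  simp only [map_add, map_mul, map_pow, map_div₀, hz, h0, h1, h2, k0, k1, k2]

/-- The matching sums vanish. -/
theorem MM_match (hM : MatchStatement.{u}) {z X0 X1 X2 Y0 Y1 Y2 θ : Ω}
    (hz : 1 + z + z ^ 2 + z ^ 3 + z ^ 4 + z ^ 5 + z ^ 6 = 0)
    (hX : X0 * X1 * X2 ≠ 0) (hθ : θ ^ 7 * (X0 ^ 4 * X1 ^ 2 * X2) = 1)
    (hY : (1 + z + z ^ 6) * Y0 + (1 + z ^ 2 + z ^ 5) * Y1 + (1 + z ^ 4 + z ^ 3) * Y2 = 0)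
    (hG : X0 * X1 * X2 + Y0 * Y1 * Y2 =
      (1 + z + z ^ 6) * (X1 * X2 * Y1 + X0 * Y0 ^ 2) +
      (1 + z ^ 2 + z ^ 5) * (X2 * X0 * Y2 + X1 * Y1 ^ 2) +
      (1 + z ^ 4 + z ^ 3) * (X0 * X1 * Y0 + X2 * Y2 ^ 2)) :
    E1 (MM z X0 X1 X2 Y0 Y1 Y2 θ) = 0 ∧ E2 (MM z X0 X1 X2 Y0 Y1 Y2 θ) = 0 ∧
      E3 (MM z X0 X1 X2 Y0 Y1 Y2 θ) = 0 := by
  have hx0 : X0 ≠ 0 := by
    rintro rfl
    simp at hX
  have hx1 : X1 ≠ 0 := by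
    rintro rfl
    simp at hX
  have hx2 : X2 ≠ 0 := by
    rintro rfl
    simp at hX
  have hθ0 : θ ≠ 0 := by
    rintro rfl
    simp at hθ
  have key := hM Ω z θ (X0 * θ ^ 2) (X1 * (X0 * θ ^ 2) ^ 2) (Y0 / (θ * (X0 * X1 * X2)))
    (Y1 / (X0 * θ ^ 2 * (X0 * X1 * X2))) (Y2 / (X1 * (X0 * θ ^ 2) ^ 2 * (X0 * X1 * X2))) hz ?_ ?_
  · exact key
  · have : (1 + z + z ^ 6) * (θ * (Y0 / (θ * (X0 * X1 * X2)))) +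
        (1 + z ^ 2 + z ^ 5) * (X0 * θ ^ 2 * (Y1 / (X0 * θ ^ 2 * (X0 * X1 * X2)))) +
        (1 + z ^ 4 + z ^ 3) * (X1 * (X0 * θ ^ 2) ^ 2 * (Y2 / (X1 * (X0 * θ ^ 2) ^ 2 * (X0 * X1 * X2)))) =
        ((1 + z + z ^ 6) * Y0 + (1 + z ^ 2 + z ^ 5) * Y1 + (1 + z ^ 4 + z ^ 3) * Y2) / (X0 * X1 * X2) := by
      field_simp
    rw [this, hY, zero_div]
  · -- values of the monomials
    have v0 : θ * (X0 * θ ^ 2) * (X1 * (X0 * θ ^ 2) ^ 2) = 1 / (X0 * X1 * X2) := by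
      rw [eq_div_iff hX]
      linear_combination hθ
    have hprod : (Y0 / (θ * (X0 * X1 * X2))) * (Y1 / (X0 * θ ^ 2 * (X0 * X1 * X2))) *
        (Y2 / (X1 * (X0 * θ ^ 2) ^ 2 * (X0 * X1 * X2))) = Y0 * Y1 * Y2 / (X0 * X1 * X2) ^ 2 := by
      have : (Y0 / (θ * (X0 * X1 * X2))) * (Y1 / (X0 * θ ^ 2 * (X0 * X1 * X2))) *
        (Y2 / (X1 * (X0 * θ ^ 2) ^ 2 * (X0 * X1 * X2))) =
        Y0 * Y1 * Y2 / ((θ * (X0 * θ ^ 2) * (X1 * (X0 * θ ^ 2) ^ 2)) * (X0 * X1 * X2) ^ 3) := by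
        field_simp
      rw [this, v0]
      field_simp
    have w1 : θ ^ 2 * (Y1 / (X0 * θ ^ 2 * (X0 * X1 * X2))) = Y1 / (X0 * (X0 * X1 * X2)) := by
      field_simp
    have w2 : (X0 * θ ^ 2) ^ 2 * (Y2 / (X1 * (X0 * θ ^ 2) ^ 2 * (X0 * X1 * X2))) =
        Y2 / (X1 * (X0 * X1 * X2)) := by
      field_simp
    have w3 : (X1 * (X0 * θ ^ 2) ^ 2) ^ 2 * (Y0 / (θ * (X0 * X1 * X2))) =
        Y0 / (X2 * (X0 * X1 * X2)) := by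
      rw [← mul_div_assoc, div_eq_div_iff (mul_ne_zero hθ0 hX) (mul_ne_zero hx2 hX)]
      linear_combination (Y0 * θ * (X0 * X1 * X2)) * hθ
    have u1 : (Y0 / (θ * (X0 * X1 * X2))) ^ 2 * (X0 * θ ^ 2) = Y0 ^ 2 * X0 / (X0 * X1 * X2) ^ 2 := by
      field_simp
    have u2 : (Y1 / (X0 * θ ^ 2 * (X0 * X1 * X2))) ^ 2 * (X1 * (X0 * θ ^ 2) ^ 2) =
        Y1 ^ 2 * X1 / (X0 * X1 * X2) ^ 2 := by
      field_simp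
    have u3 : (Y2 / (X1 * (X0 * θ ^ 2) ^ 2 * (X0 * X1 * X2))) ^ 2 * θ =
        Y2 ^ 2 * X2 / (X0 * X1 * X2) ^ 2 := by
      have hne : (X1 * (X0 * θ ^ 2) ^ 2 * (X0 * X1 * X2)) ^ 2 ≠ 0 :=
        pow_ne_zero 2 (mul_ne_zero (mul_ne_zero hx1 (pow_ne_zero 2 (mul_ne_zero hx0 (pow_ne_zero 2 hθ0)))) hX)
      rw [div_pow, div_mul_eq_mul_div, div_eq_div_iff hne (pow_ne_zero 2 hX)]
      linear_combination (-(Y2 ^ 2 * θ * (X0 * X1 * X2) ^ 2)) * hθ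
    rw [v0, hprod, w1, w2, w3, u1, u2, u3]
    have hX2 : (X0 * X1 * X2) ^ 2 ≠ 0 := pow_ne_zero 2 hX
    have goal1 : 1 / (X0 * X1 * X2) + Y0 * Y1 * Y2 / (X0 * X1 * X2) ^ 2 =
        (X0 * X1 * X2 + Y0 * Y1 * Y2) / (X0 * X1 * X2) ^ 2 := by
      field_simp
    rw [goal1, hG]
    field_simp

end BR7.H50
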