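import Pool.Agent.Lib.MP_defcf3_al.BR.H50.KeyA

/-! KEY: set-up of the elements. -/

namespace BR7.H50

universe u

open BR7

variable {F Ω : Type u} [Field F] [Field Ω] [Algebra F Ω]

theorem smul_coe (g : Ω ≃ₐ[F] Ω) (a : Ωˣ) : ((g • a : Ωˣ) : Ω) = g (a : Ω) := rfl

theorem sum_zero {ζ : Ωˣ} (h : IsPrimitiveRoot ζ 7) :
    1 + (ζ : Ω) + (ζ : Ω) ^ 2 + (ζ : Ω) ^ 3 + (ζ : Ω) ^ 4 + (ζ : Ω) ^ 5 + (ζ : Ω) ^ 6 = 0 := by
  have h' : IsPrimitiveRoot (ζ : Ω) 7 := h.map_of_injective (f := Units.coeHom Ω) Units.val_injective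
  have := h'.geom_sum_eq_zero (by norm_num)
  simp only [Finset.sum_range_succ, Finset.sum_range_zero, pow_zero, pow_one] at this
  linear_combination this

theorem pow7 {ζ : Ωˣ} (h : IsPrimitiveRoot ζ 7) : (ζ : Ω) ^ 7 = 1 := by
  have := h.pow_eq_one
  rw [← Units.val_pow_eq_pow_val, this, Units.val_one]

theorem inv6 {ζ : Ωˣ} (h : IsPrimitiveRoot ζ 7) : (ζ : Ω)⁻¹ = (ζ : Ω) ^ 6 := by
  apply inv_eq_of_mul_eq_one_left
  rw [← pow_succ]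
  exact pow7 h

theorem trel0 {z : Ω} (hs : 1 + z + z ^ 2 + z ^ 3 + z ^ 4 + z ^ 5 + z ^ 6 = 0) :
    (z + z ^ 6) ^ 3 + (z + z ^ 6) ^ 2 - 2 * (z + z ^ 6) - 1 = 0 := by
  linear_combination ((-1) + (-1)*z + 3*z^2 + (-1)*z^4 + (-2)*z^6 + 3*z^7 + (-1)*z^11 + z^12) * hs

theorem trel1 {z : Ω} (hz : z ^ 7 = 1) : z ^ 2 + z ^ 5 = (z + z ^ 6) ^ 2 - 2 := by
  linear_combination (-(2 + z ^ 5)) * hz

theorem trel2 {z : Ω} (hz : z ^ 7 = 1) : z ^ 4 + z ^ 3 = (z ^ 2 + z ^ 5) ^ 2 - 2 := by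
  linear_combination (-(2 + z ^ 3)) * hz

/-- The line identities in terms of z. -/
theorem lineZ (hL : LineStatement.{u}) {z : Ω} (hz : z ^ 7 = 1)
    (hs : 1 + z + z ^ 2 + z ^ 3 + z ^ 4 + z ^ 5 + z ^ 6 = 0) (r q : Ω) :
    (1 + z + z ^ 6) * lineY (z + z ^ 6) r q + (1 + z ^ 2 + z ^ 5) * lineY (z ^ 2 + z ^ 5) r q +
      (1 + z ^ 4 + z ^ 3) * lineY (z ^ 4 + z ^ 3) r q = 0 ∧
    lineX (z + z ^ 6) r q * lineX (z ^ 2 + z ^ 5) r q * lineX (z ^ 4 + z ^ 3) r q +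
      lineY (z + z ^ 6) r q * lineY (z ^ 2 + z ^ 5) r q * lineY (z ^ 4 + z ^ 3) r q =
      (1 + z + z ^ 6) * (lineX (z ^ 2 + z ^ 5) r q * lineX (z ^ 4 + z ^ 3) r q * lineY (z ^ 2 + z ^ 5) r q +
        lineX (z + z ^ 6) r q * lineY (z + z ^ 6) r q ^ 2) +
      (1 + z ^ 2 + z ^ 5) * (lineX (z ^ 4 + z ^ 3) r q * lineX (z + z ^ 6) r q * lineY (z ^ 4 + z ^ 3) r q +
        lineX (z ^ 2 + z ^ 5) r q * lineY (z ^ 2 + z ^ 5) r q ^ 2) +
      (1 + z ^ 4 + z ^ 3) * (lineX (z + z ^ 6) r q * lineX (z ^ 2 + z ^ 5) r q * lineY (z + z ^ 6) r q +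
        lineX (z ^ 4 + z ^ 3) r q * lineY (z ^ 4 + z ^ 3) r q ^ 2) := by
  obtain ⟨h1, h2⟩ := hL Ω (z + z ^ 6) (z ^ 2 + z ^ 5) (z ^ 4 + z ^ 3) r q (trel0 hs) (trel1 hz) (trel2 hz)
  constructor
  · linear_combination h1
  · linear_combination h2

theorem map_lineX (g : Ω ≃ₐ[F] Ω) (t : Ω) (r q : F) :
    g (lineX t (algebraMap F Ω r) (algebraMap F Ω q)) =
      lineX (g t) (algebraMap F Ω r) (algebraMap F Ω q) := by
  simp only [lineX, map_add, map_mul, map_pow, AlgEquiv.commutes, map_ofNat, map_one]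

theorem map_lineY (g : Ω ≃ₐ[F] Ω) (t : Ω) (r q : F) :
    g (lineY t (algebraMap F Ω r) (algebraMap F Ω q)) =
      lineY (g t) (algebraMap F Ω r) (algebraMap F Ω q) := by
  simp only [lineY, map_add, map_mul, map_pow, map_sub, AlgEquiv.commutes, map_ofNat, map_one]

theorem gamma_pow {ζ : Ωˣ} {γ : Ω ≃ₐ[F] Ω} (h : γ • ζ = ζ ^ 3) (i : ℕ) : γ ^ i • ζ = ζ ^ (3 ^ i) := by
  induction i with
  | zero => simp
  | succ i ih =>
    rw [pow_succ', mul_smul, ih, smul_pow', h, ← pow_mul, pow_succ']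

theorem pow_red {z : Ω} (hz : z ^ 7 = 1) (a b : ℕ) (h : a % 7 = b % 7) : z ^ a = z ^ b := by
  rw [← Nat.mod_add_div a 7, ← Nat.mod_add_div b 7, pow_add, pow_add, pow_mul, pow_mul, hz, one_pow,
    one_pow, h]

section Sym

variable {Q : Type u} [AddCommGroup Q] {sym : Ωˣ → Ωˣ → Q} {Γ : AddMonoid.End Q} {ζ : Ωˣ} {γ : Ω ≃ₐ[F] Ω}
  {k d : ℕ}

theorem InL_one : InL F ζ 1 := fun g _ => smul_one g
theorem InL_mul {a b : Ωˣ} (ha : InL F ζ a) (hb : InL F ζ b) : InL F ζ (a * b) := fun g hg => by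
  rw [smul_mul', ha g hg, hb g hg]
theorem InL_inv {a : Ωˣ} (ha : InL F ζ a) : InL F ζ a⁻¹ := fun g hg => by
  rw [smul_inv', ha g hg]
theorem InL_pow {a : Ωˣ} (ha : InL F ζ a) (n : ℕ) : InL F ζ (a ^ n) := fun g hg => by
  rw [smul_pow', ha g hg]

theorem sym_one_right (hS : SymAx F ζ γ k d sym Γ) {a : Ωˣ} (ha : InL F ζ a) : sym a 1 = 0 := by
  have := hS.add_right a 1 1 ha InL_one InL_one
  rw [mul_one] at this
  simpa using this

theorem sym_one_left (hS : SymAx F ζ γ k d sym Γ) {b : Ωˣ} (hb : InL F ζ b) : sym 1 b = 0 := by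
  have := hS.add_left 1 1 b InL_one InL_one hb
  rw [mul_one] at this
  simpa using this

theorem sym_pow_right (hS : SymAx F ζ γ k d sym Γ) {a b : Ωˣ} (ha : InL F ζ a) (hb : InL F ζ b) (n : ℕ) :
    sym a (b ^ n) = n • sym a b := by
  induction n with
  | zero => simp [sym_one_right hS ha]
  | succ n ih => rw [pow_succ, hS.add_right _ _ _ ha (InL_pow hb n) hb, ih, succ_nsmul]

theorem sym_pow_left (hS : SymAx F ζ γ k d sym Γ) {a b : Ωˣ} (ha : InL F ζ a) (hb : InL F ζ b) (n : ℕ) :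
    sym (a ^ n) b = n • sym a b := by
  induction n with
  | zero => simp [sym_one_left hS hb]
  | succ n ih => rw [pow_succ, hS.add_left _ _ _ (InL_pow ha n) ha hb, ih, succ_nsmul]

theorem sym_inv_right (hS : SymAx F ζ γ k d sym Γ) {a b : Ωˣ} (ha : InL F ζ a) (hb : InL F ζ b) :
    sym a b⁻¹ = - sym a b := by
  have := hS.add_right a b b⁻¹ ha hb (InL_inv hb)
  rw [mul_inv_cancel, sym_one_right hS ha] at this
  exact (neg_eq_of_add_eq_zero_right this.symm).symm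

theorem sym_inv_left (hS : SymAx F ζ γ k d sym Γ) {a b : Ωˣ} (ha : InL F ζ a) (hb : InL F ζ b) :
    sym a⁻¹ b = - sym a b := by
  have := hS.add_left a a⁻¹ b ha (InL_inv ha) hb
  rw [mul_inv_cancel, sym_one_left hS hb] at this
  exact (neg_eq_of_add_eq_zero_right this.symm).symm

end Sym

end BR7.H50
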