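import Pool.Agent.Lib.MP_defcf3_al.BR.H50.Cls
import Pool.Agent.Lib.MP_defcf3_al.BR.H50.KeyB

/-! MAIN: assembly of the cohomological theorem. -/

namespace BR7.H50

universe u

open BR7

theorem HZ_normal {F Ω : Type u} [Field F] [Field Ω] [Algebra F Ω] {ζ : Ωˣ} {γ : Ω ≃ₐ[F] Ω} {k : ℕ}
    (hγ : γ • ζ = ζ ^ k) : ∀ h ∈ HZ F ζ, γ⁻¹ * h * γ ∈ HZ F ζ := by
  intro h hh
  rw [MulAction.mem_stabilizer_iff] at hh ⊢
  rw [mul_smul, mul_smul, hγ, smul_pow', hh, ← hγ, inv_smul_smul]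

/-- The endomorphism written additively. -/
noncomputable def endA {M : Type u} [CommGroup M] (Γ : M →* M) : AddMonoid.End (Additive M) :=
  MonoidHom.toAdditive Γ

theorem endA_apply {M : Type u} [CommGroup M] (Γ : M →* M) (x : M) :
    endA Γ (Additive.ofMul x) = Additive.ofMul (Γ x) := rfl

theorem symAx_of {F Ω : Type u} [Field F] [Field Ω] [Algebra F Ω] [IsGalois F Ω] [IsSepClosed Ω]
    (hAdd : SymAddStatement.{u}) (hSt : SymSteinStatement.{u}) (hNo : SymNormStatement.{u})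
    (hKu : SymKumStatement.{u}) (hGa : SymGalStatement.{u}) (hTr : TrivStatement.{u})
    (hDisc : DiscStatement.{u}) (hConj : ConjCStatement.{u})
    (ζ : Ωˣ) (hp : IsPrimitiveRoot ζ 7) (γ : Ω ≃ₐ[F] Ω) (k d : ℕ) (hγ : γ • ζ = ζ ^ k)
    (hgen : ∀ g : Ω ≃ₐ[F] Ω, ∃ i : ℕ, i < d ∧ g • ζ = (γ ^ i) • ζ)
    (hinj : ∀ i j : ℕ, i < d → j < d → (γ ^ i) • ζ = (γ ^ j) • ζ → i = j)
    (hCyc : ∀ (a : Ωˣ) (χ : (Ω ≃ₐ[F] Ω) → ZMod 7), InF F a → (∀ g h, χ (g * h) = χ g + χ h) →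
      IsLocallyConstant χ → cup 7 a χ ∈ B2 (Ω ≃ₐ[F] Ω) Ωˣ)
    (Γ : H2 (HZ F ζ) Ωˣ →* H2 (HZ F ζ) Ωˣ)
    (hΓ : ∀ f ∈ Z2 (HZ F ζ) Ωˣ, Γ (cls (HZ F ζ) Ωˣ f) = cls (HZ F ζ) Ωˣ (conjC (HZ F ζ) γ (HZ_normal hγ) f)) :
    SymAx F ζ γ k d (Q := Additive (H2 (HZ F ζ) Ωˣ)) (fun a b => Additive.ofMul (symb F ζ a b))
      (endA (M := H2 (HZ F ζ) Ωˣ) Γ) := by
  obtain ⟨hZ, ha1, ha2, ha3⟩ := hAdd F Ω ζ hp
  obtain ⟨hs1, hs2⟩ := hSt F Ω ζ hp
  have hpowk : ∀ i : ℕ, (γ ^ i) • ζ = ζ ^ (k ^ i) := by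
    intro i
    induction i with
    | zero => simp
    | succ i ih => rw [pow_succ', mul_smul, ih, smul_pow', hγ, ← pow_mul, pow_succ']
  have hH : ∀ i : ℕ, ∀ h ∈ HZ F ζ, (γ ^ i)⁻¹ * h * γ ^ i ∈ HZ F ζ := fun i => HZ_normal (hpowk i)
  refine
    { prim := hp
      act := hγ
      gen := fun g => (hgen g).imp fun i hi => hi.2
      add_left := fun a a' b h h' hb => by
        change Additive.ofMul _ = Additive.ofMul _
        rw [ha1 a a' b h h' hb]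
        rfl
      add_right := fun a b b' h hb hb' => by
        change Additive.ofMul _ = Additive.ofMul _
        rw [ha2 a b b' h hb hb']
        rfl
      tors := fun a b h hb => by
        have := ha3 a b h hb
        change Additive.ofMul (symb F ζ a b ^ 7) = Additive.ofMul 1
        rw [this]
      self := fun b hb => by
        change Additive.ofMul _ = Additive.ofMul 1
        rw [hs1 b hb]
      stein := fun a b h hb e => by
        change Additive.ofMul _ = Additive.ofMul 1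
        rw [hs2 a b h hb e]
      norm := fun n b h hb hN => by
        change Additive.ofMul _ = Additive.ofMul 1
        rw [hNo F Ω ζ hp n b h hb hN]
      kum := fun C b f hC hb hf hN => by
        obtain ⟨β, h1, h2⟩ := hKu F Ω ζ hp C b f hC hb hf hN
        exact ⟨β, h1, congrArg Additive.ofMul h2⟩
      gal := fun a b h hb => ?_
      triv := fun f l hf hl => ?_ }
  · have h1 := hGa F Ω ζ hp γ k (HZ_normal hγ) hγ a b h hb
    have h2 := hΓ _ (hZ a b h hb)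
    change Additive.ofMul ((Γ (symb F ζ a b)) ^ k) = Additive.ofMul _
    rw [← h1, ← h2]
    rfl
  · have hfl : InL F ζ f := fun g _ => hf g
    have hfZ := hZ f l hfl hl
    have hnorm : ∀ g : Ω ≃ₐ[F] Ω, ∃! i : Fin d, g • ζ = (γ ^ (i : ℕ)) • ζ := by
      intro g
      obtain ⟨i, hi, he⟩ := hgen g
      refine ⟨⟨i, hi⟩, he, ?_⟩
      rintro ⟨j, hj⟩ hj2
      exact Fin.ext (hinj j i hj hi (hj2.symm.trans he))
    have h1 := hTr F Ω ζ hp hCyc γ d hH hnorm f l hf hl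
    have hcomm : ∀ (i : ℕ) (c : HZ F ζ → HZ F ζ → Ωˣ), conjC (HZ F ζ) (γ ^ (i + 1)) (hH (i + 1)) c =
        conjC (HZ F ζ) γ (HZ_normal hγ) (conjC (HZ F ζ) (γ ^ i) (hH i) c) := by
      intro i c
      funext g h
      change (γ ^ (i + 1)) • c _ _ = γ • (γ ^ i) • c _ _
      rw [← mul_smul, ← pow_succ']
      congr 2
      · refine Subtype.ext ?_
        change (γ ^ (i + 1))⁻¹ * (g : Ω ≃ₐ[F] Ω) * γ ^ (i + 1) = (γ ^ i)⁻¹ * (γ⁻¹ * (g : Ω ≃ₐ[F] Ω) * γ) * γ ^ i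
        rw [pow_succ', mul_inv_rev]
        simp only [mul_assoc]
      · refine Subtype.ext ?_
        change (γ ^ (i + 1))⁻¹ * (h : Ω ≃ₐ[F] Ω) * γ ^ (i + 1) = (γ ^ i)⁻¹ * (γ⁻¹ * (h : Ω ≃ₐ[F] Ω) * γ) * γ ^ i
        rw [pow_succ', mul_inv_rev]
        simp only [mul_assoc]
    have hcZ : ∀ c ∈ Z2 (HZ F ζ) Ωˣ, ∀ i : ℕ, conjC (HZ F ζ) (γ ^ i) (hH i) c ∈ Z2 (HZ F ζ) Ωˣ := by
      intro c hc i
      exact (hConj (Ω ≃ₐ[F] Ω) Ωˣ (hDisc F Ω) (HZ F ζ) (γ ^ i) (hH i)).1 c hc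
    have hpowΓ : ∀ i : ℕ, ∀ c ∈ Z2 (HZ F ζ) Ωˣ,
        ((endA (M := H2 (HZ F ζ) Ωˣ) Γ) ^ i)
          (Additive.ofMul (cls (HZ F ζ) Ωˣ c)) =
        Additive.ofMul (cls (HZ F ζ) Ωˣ (conjC (HZ F ζ) (γ ^ i) (hH i) c)) := by
      intro i c hc
      induction i with
      | zero =>
        rw [pow_zero]
        change Additive.ofMul _ = Additive.ofMul _
        congr 2
      | succ i ih =>
        rw [pow_succ']
        change (endA (M := H2 (HZ F ζ) Ωˣ) Γ) (((endA (M := H2 (HZ F ζ) Ωˣ) Γ) ^ i) _) = _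
        rw [ih, hcomm, endA_apply, hΓ _ (hcZ c hc i)]
    have hprod : ∀ (s : Finset (Fin d)), cls (HZ F ζ) Ωˣ
        (∏ i ∈ s, conjC (HZ F ζ) (γ ^ (i : ℕ)) (hH i) (cup 7 f (kum F ζ l))) =
        ∏ i ∈ s, cls (HZ F ζ) Ωˣ (conjC (HZ F ζ) (γ ^ (i : ℕ)) (hH i) (cup 7 f (kum F ζ l))) := by
      intro s
      induction s using Finset.cons_induction with
      | empty =>
        rw [Finset.prod_empty, Finset.prod_empty]
        exact (cls_one_iff (one_mem _)).mpr (one_mem _)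
      | cons a s ha ih =>
        rw [Finset.prod_cons, Finset.prod_cons, cls_mul (hcZ _ hfZ _) (prod_mem fun i _ => hcZ _ hfZ _), ih]
    have h2 : cls (HZ F ζ) Ωˣ (∏ i : Fin d, conjC (HZ F ζ) (γ ^ (i : ℕ)) (hH i) (cup 7 f (kum F ζ l))) = 1 :=
      (cls_one_iff (prod_mem fun i _ => hcZ _ hfZ _)).mpr h1
    rw [hprod] at h2
    rw [Finset.sum_range]
    have h3 : ∀ i : Fin d, ((endA (M := H2 (HZ F ζ) Ωˣ) Γ) ^ (i : ℕ))
          (Additive.ofMul (symb F ζ f l)) =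
        Additive.ofMul (cls (HZ F ζ) Ωˣ (conjC (HZ F ζ) (γ ^ (i : ℕ)) (hH i) (cup 7 f (kum F ζ l)))) :=
      fun i => hpowΓ i _ hfZ
    rw [Finset.sum_congr rfl (fun i _ => h3 i)]
    exact congrArg Additive.ofMul h2

theorem hinj_of {F Ω : Type u} [Field F] [Field Ω] [Algebra F Ω] {ζ : Ωˣ} {γ : Ω ≃ₐ[F] Ω} {k d : ℕ}
    (hp : IsPrimitiveRoot ζ 7) (hγ : γ • ζ = ζ ^ k)
    (hkd : (k = 1 ∧ d = 1) ∨ (k = 6 ∧ d = 2) ∨ (k = 2 ∧ d = 3) ∨ (k = 3 ∧ d = 6)) :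
    ∀ i j : ℕ, i < d → j < d → (γ ^ i) • ζ = (γ ^ j) • ζ → i = j := by
  have hpowk : ∀ i : ℕ, (γ ^ i) • ζ = ζ ^ (k ^ i) := by
    intro i
    induction i with
    | zero => simp
    | succ i ih => rw [pow_succ', mul_smul, ih, smul_pow', hγ, ← pow_mul, pow_succ']
  intro i j hi hj h
  rw [hpowk, hpowk, pow_eq_pow_iff_modEq, ← hp.eq_orderOf] at h
  unfold Nat.ModEq at h
  rcases hkd with ⟨rfl, rfl⟩ | ⟨rfl, rfl⟩ | ⟨rfl, rfl⟩ | ⟨rfl, rfl⟩
  · omega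
  · interval_cases i <;> interval_cases j <;> first | rfl | (exfalso; revert h; decide)
  · interval_cases i <;> interval_cases j <;> first | rfl | (exfalso; revert h; decide)
  · interval_cases i <;> interval_cases j <;> first | rfl | (exfalso; revert h; decide)

theorem res_Z2 {G A : Type u} [Group G] [TopologicalSpace G] [CommGroup A] [MulDistribMulAction G A]
    (H : Subgroup G) {f : G → G → A} (hf : f ∈ Z2 G A) : (fun g h : H => f g h) ∈ Z2 H A := by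
  refine ⟨?_, fun g h k => hf.2 g h k⟩
  have := hf.1.comp_continuous (f := fun p : H × H => ((p.1 : G), (p.2 : G))) (by fun_prop)
  exact this

theorem kill {M : Type u} [CommGroup M] (S : Set M) (d : ℕ) (hco : Nat.Coprime d 7) (Γ : M →* M)
    (h1 : ∀ s ∈ S, ∑ i ∈ Finset.range d, ((endA Γ) ^ i) (Additive.ofMul s) = 0)
    (h7 : ∀ s ∈ S, s ^ 7 = 1) (X : M) (hX : X ∈ Subgroup.closure S) (hfix : Γ X = X) : X = 1 := by
  have hpowfix : ∀ i : ℕ, ((endA Γ) ^ i) (Additive.ofMul X) = Additive.ofMul X := by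
    intro i
    induction i with
    | zero => rw [pow_zero]; rfl
    | succ i ih =>
      rw [pow_succ']
      change (endA Γ) (((endA Γ) ^ i) _) = _
      rw [ih, endA_apply, hfix]
  have hΦ : ∀ s ∈ Subgroup.closure S,
      ∑ i ∈ Finset.range d, ((endA Γ) ^ i) (Additive.ofMul s) = 0 := by
    intro s hs
    induction hs using Subgroup.closure_induction with
    | mem s hs => exact h1 s hs
    | one =>
      refine Finset.sum_eq_zero fun i _ => ?_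
      exact AddMonoidHom.map_zero ((endA Γ) ^ i)
    | mul s t _ _ ihs iht =>
      have : ∀ i : ℕ, ((endA Γ) ^ i) (Additive.ofMul (s * t)) =
          ((endA Γ) ^ i) (Additive.ofMul s) + ((endA Γ) ^ i) (Additive.ofMul t) :=
        fun i => AddMonoidHom.map_add ((endA Γ) ^ i) (Additive.ofMul s) (Additive.ofMul t)
      rw [Finset.sum_congr rfl (fun i _ => this i), Finset.sum_add_distrib, ihs, iht, add_zero]
    | inv s _ ihs =>
      have : ∀ i : ℕ, ((endA Γ) ^ i) (Additive.ofMul s⁻¹) = - ((endA Γ) ^ i) (Additive.ofMul s) :=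
        fun i => AddMonoidHom.map_neg ((endA Γ) ^ i) (Additive.ofMul s)
      rw [Finset.sum_congr rfl (fun i _ => this i), Finset.sum_neg_distrib, ihs, neg_zero]
  have h7' : ∀ s ∈ Subgroup.closure S, s ^ 7 = 1 := by
    intro s hs
    induction hs using Subgroup.closure_induction with
    | mem s hs => exact h7 s hs
    | one => exact one_pow 7
    | mul s t _ _ ihs iht => rw [mul_pow, ihs, iht, one_mul]
    | inv s _ ihs => rw [inv_pow, ihs, inv_one]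
  have e1 := hΦ X hX
  rw [Finset.sum_congr rfl (fun i _ => hpowfix i), Finset.sum_const, Finset.card_range] at e1
  have e2 : X ^ d = 1 := e1
  have e3 := h7' X hX
  have e4 : X ^ (Nat.gcd d 7) = 1 := by
    rw [← orderOf_dvd_iff_pow_eq_one]
    exact Nat.dvd_gcd (orderOf_dvd_of_pow_eq_one e2) (orderOf_dvd_of_pow_eq_one e3)
  rw [hco, pow_one] at e4
  exact e4

/-- MAIN. -/
theorem main (hAdd : SymAddStatement.{u}) (hSt : SymSteinStatement.{u}) (hNo : SymNormStatement.{u})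
    (hKu : SymKumStatement.{u}) (hGa : SymGalStatement.{u}) (hTr : TrivStatement.{u})
    (hDisc : DiscStatement.{u}) (hConj : ConjCStatement.{u}) (hRes : ConjResStatement.{u})
    (hCycZ : CycZeroStatement.{u}) (h1 : HeartStatement.{u} 1 1) (h2 : HeartStatement.{u} 6 2)
    (h3 : HeartStatement.{u} 2 3) (h6 : HeartStatement.{u} 3 6) : MainCohStatement.{u} := by
  intro F Ω _ _ _ _ _ ζ hp κ hκ x hx hS
  obtain ⟨γ, k, d, hkd, hγ, hgen⟩ := cases_gamma (F := F) hp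
  have hC := hConj (Ω ≃ₐ[F] Ω) Ωˣ (hDisc F Ω) (HZ F ζ) γ (HZ_normal hγ)
  have hΓ := fun f hf => mapH2_cls (HZ F ζ) (conjC (HZ F ζ) γ (HZ_normal hγ)) hC.1 hC.2 (f := f) hf
  generalize mapH2 (HZ F ζ) (conjC (HZ F ζ) γ (HZ_normal hγ)) hC.1 hC.2 = Γ at hΓ
  have hcyc := hCycZ F Ω ζ hp κ hκ
  have hsym := symAx_of hAdd hSt hNo hKu hGa hTr hDisc hConj ζ hp γ k d hγ hgen
    (hinj_of hp hγ hkd) hcyc Γ hΓ
  have hnz : NormZero F ζ d (Q := Additive (H2 (HZ F ζ) Ωˣ)) (fun a b => Additive.ofMul (symb F ζ a b))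
      (endA (M := H2 (HZ F ζ) Ωˣ) Γ) := by
    rcases hkd with ⟨rfl, rfl⟩ | ⟨rfl, rfl⟩ | ⟨rfl, rfl⟩ | ⟨rfl, rfl⟩
    · exact h1 F Ω ζ γ _ _ _ hsym
    · exact h2 F Ω ζ γ _ _ _ hsym
    · exact h3 F Ω ζ γ _ _ _ hsym
    · exact h6 F Ω ζ γ _ _ _ hsym
  have hXZ := res_Z2 (HZ F ζ) hx
  have hfix : Γ (cls (HZ F ζ) Ωˣ (fun g h : HZ F ζ => x g h)) =
      cls (HZ F ζ) Ωˣ (fun g h : HZ F ζ => x g h) := by
    rw [hΓ _ hXZ, cls_eq_iff (hC.1 _ hXZ) hXZ]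
    exact hRes (Ω ≃ₐ[F] Ω) Ωˣ (hDisc F Ω) (HZ F ζ) γ (HZ_normal hγ) x hx
  rw [← cls_one_iff hXZ]
  have hco : Nat.Coprime d 7 := by
    rcases hkd with ⟨rfl, rfl⟩ | ⟨rfl, rfl⟩ | ⟨rfl, rfl⟩ | ⟨rfl, rfl⟩ <;> decide
  refine kill (M := H2 (HZ F ζ) Ωˣ) {s | ∃ a b : Ωˣ, InL F ζ a ∧ InL F ζ b ∧ s = symb F ζ a b} d hco Γ
    ?_ ?_ _ hS hfix
  · rintro s ⟨a, b, ha, hb, rfl⟩
    exact hnz a b ha hb
  · rintro s ⟨a, b, ha, hb, rfl⟩
    exact (hAdd F Ω ζ hp).2.2.2 a b ha hb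

end BR7.H50
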