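import Pool.Agent.Lib.MP_defcf3_al.BR.H50.Main
import Pool.Agent.Lib.MP_defcf3_al.BR.StageT

/-! MAINC: the cohomological theorem modulo cyclic classes. -/

namespace BR7.H50

universe u

open BR7

theorem symAxQ {F Ω : Type u} [Field F] [Field Ω] [Algebra F Ω] [IsGalois F Ω] [IsSepClosed Ω]
    (hAdd : SymAddStatement.{u}) (hSt : SymSteinStatement.{u}) (hNo : SymNormStatement.{u})
    (hKu : SymKumStatement.{u}) (hGa : SymGalStatement.{u})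
    (hDisc : DiscStatement.{u}) (hConj : ConjCStatement.{u})
    (ζ : Ωˣ) (hp : IsPrimitiveRoot ζ 7) (γ : Ω ≃ₐ[F] Ω) (k d : ℕ) (hγ : γ • ζ = ζ ^ k)
    (hgen : ∀ g : Ω ≃ₐ[F] Ω, ∃ i : ℕ, i < d ∧ g • ζ = (γ ^ i) • ζ)
    (Γ : H2 (HZ F ζ) Ωˣ →* H2 (HZ F ζ) Ωˣ)
    (hΓ : ∀ f ∈ Z2 (HZ F ζ) Ωˣ, Γ (cls (HZ F ζ) Ωˣ f) = cls (HZ F ζ) Ωˣ (conjC (HZ F ζ) γ (HZ_normal hγ) f))
    (M : Type u) [CommGroup M] (π : H2 (HZ F ζ) Ωˣ →* M) (Γ' : M →* M) (hΓ' : ∀ x, Γ' (π x) = π (Γ x))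
    (hH : ∀ i : ℕ, ∀ h ∈ HZ F ζ, (γ ^ i)⁻¹ * h * γ ^ i ∈ HZ F ζ)
    (hTr : ∀ f l : Ωˣ, InF F f → InL F ζ l →
      π (cls (HZ F ζ) Ωˣ (∏ i : Fin d, conjC (HZ F ζ) (γ ^ (i : ℕ)) (hH i) (cup 7 f (kum F ζ l)))) = 1) :
    SymAx F ζ γ k d (Q := Additive M) (fun a b => Additive.ofMul (π (symb F ζ a b))) (endA Γ') := by
  obtain ⟨hZ, ha1, ha2, ha3⟩ := hAdd F Ω ζ hp
  obtain ⟨hs1, hs2⟩ := hSt F Ω ζ hp
  refine
    { prim := hp
      act := hγ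
      gen := fun g => (hgen g).imp fun i hi => hi.2
      add_left := fun a a' b h h' hb => by
        change Additive.ofMul _ = Additive.ofMul _
        rw [ha1 a a' b h h' hb, map_mul]
        rfl
      add_right := fun a b b' h hb hb' => by
        change Additive.ofMul _ = Additive.ofMul _
        rw [ha2 a b b' h hb hb', map_mul]
        rfl
      tors := fun a b h hb => by
        have := ha3 a b h hb
        change Additive.ofMul (π (symb F ζ a b) ^ 7) = Additive.ofMul 1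
        rw [← map_pow, this, map_one]
      self := fun b hb => by
        change Additive.ofMul _ = Additive.ofMul 1
        rw [hs1 b hb, map_one]
      stein := fun a b h hb e => by
        change Additive.ofMul _ = Additive.ofMul 1
        rw [hs2 a b h hb e, map_one]
      norm := fun n b h hb hN => by
        change Additive.ofMul _ = Additive.ofMul 1
        rw [hNo F Ω ζ hp n b h hb hN, map_one]
      kum := fun C b f hC hb hf hN => by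
        obtain ⟨β, h1, h2⟩ := hKu F Ω ζ hp C b f hC hb hf hN
        exact ⟨β, h1, congrArg (fun x => Additive.ofMul (π x)) h2⟩
      gal := fun a b h hb => ?_
      triv := fun f l hf hl => ?_ }
  · have h1 := hGa F Ω ζ hp γ k (HZ_normal hγ) hγ a b h hb
    have h2 := hΓ _ (hZ a b h hb)
    change Additive.ofMul ((Γ' (π (symb F ζ a b))) ^ k) = Additive.ofMul (π (symb F ζ (γ • a) (γ • b)))
    have h3 : π (symb F ζ (γ • a) (γ • b)) = (Γ' (π (symb F ζ a b))) ^ k := by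
      rw [← h1, ← h2, map_pow π, hΓ']
      rfl
    rw [h3]
  · have hfl : InL F ζ f := fun g _ => hf g
    have hfZ := hZ f l hfl hl
    have h1 := hTr f l hf hl
    have hcomm : ∀ (i : ℕ) (c : HZ F ζ → HZ F ζ → Ωˣ), conjC (HZ F ζ) (γ ^ (i + 1)) (hH (i + 1)) c =
        conjC (HZ F ζ) γ (HZ_normal hγ) (conjC (HZ F ζ) (γ ^ i) (hH i) c) := by
      intro i c
      funext g h
      change (γ ^ (i + 1)) • c _ _ = γ • (γ ^ i) • c _ _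
      rw [← mul_smul, ← pow_succ']
      congr 2
      · refine Subtype.ext ?_
        change (γ ^ (i + 1))⁻¹ * (g : Ω ≃ₐ[F] Ω) * γ ^ (i + 1) = (γ ^ i)⁻¹ * (γ⁻¹ * (g : Ω ≃ₐ[F] Ω) * γ) * γ ^ i
        rw [pow_succ', mul_inv_rev]
        simp only [mul_assoc]
      · refine Subtype.ext ?_
        change (γ ^ (i + 1))⁻¹ * (h : Ω ≃ₐ[F] Ω) * γ ^ (i + 1) = (γ ^ i)⁻¹ * (γ⁻¹ * (h : Ω ≃ₐ[F] Ω) * γ) * γ ^ i
        rw [pow_succ', mul_inv_rev]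
        simp only [mul_assoc]
    have hcZ : ∀ c ∈ Z2 (HZ F ζ) Ωˣ, ∀ i : ℕ, conjC (HZ F ζ) (γ ^ i) (hH i) c ∈ Z2 (HZ F ζ) Ωˣ := by
      intro c hc i
      exact (hConj (Ω ≃ₐ[F] Ω) Ωˣ (hDisc F Ω) (HZ F ζ) (γ ^ i) (hH i)).1 c hc
    have hpowΓ : ∀ i : ℕ, ∀ c ∈ Z2 (HZ F ζ) Ωˣ,
        ((endA Γ') ^ i) (Additive.ofMul (π (cls (HZ F ζ) Ωˣ c))) =
        Additive.ofMul (π (cls (HZ F ζ) Ωˣ (conjC (HZ F ζ) (γ ^ i) (hH i) c))) := by
      intro i c hc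
      induction i with
      | zero =>
        rw [pow_zero]
        change Additive.ofMul _ = Additive.ofMul _
        congr 2
      | succ i ih =>
        rw [pow_succ']
        change (endA Γ') (((endA Γ') ^ i) _) = _
        rw [ih, hcomm, endA_apply, hΓ', hΓ _ (hcZ c hc i)]
    have hprod : ∀ (s : Finset (Fin d)), cls (HZ F ζ) Ωˣ
        (∏ i ∈ s, conjC (HZ F ζ) (γ ^ (i : ℕ)) (hH i) (cup 7 f (kum F ζ l))) =
        ∏ i ∈ s, cls (HZ F ζ) Ωˣ (conjC (HZ F ζ) (γ ^ (i : ℕ)) (hH i) (cup 7 f (kum F ζ l))) := by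
      intro s
      induction s using Finset.cons_induction with
      | empty =>
        rw [Finset.prod_empty, Finset.prod_empty]
        exact (cls_one_iff (one_mem _)).mpr (one_mem _)
      | cons a s ha ih =>
        rw [Finset.prod_cons, Finset.prod_cons, cls_mul (hcZ _ hfZ _) (prod_mem fun i _ => hcZ _ hfZ _), ih]
    rw [hprod, map_prod] at h1
    rw [Finset.sum_range]
    have h3 : ∀ i : Fin d, ((endA Γ') ^ (i : ℕ)) (Additive.ofMul (π (symb F ζ f l))) =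
        Additive.ofMul (π (cls (HZ F ζ) Ωˣ (conjC (HZ F ζ) (γ ^ (i : ℕ)) (hH i) (cup 7 f (kum F ζ l))))) :=
      fun i => hpowΓ i _ hfZ
    rw [Finset.sum_congr rfl (fun i _ => h3 i)]
    exact congrArg Additive.ofMul h1

/-- Cup products of invariants with characters are cocycles. -/
def CupResZ : Prop :=
  ∀ (F Ω : Type u) [Field F] [Field Ω] [Algebra F Ω] [IsGalois F Ω] (a : Ωˣ)
    (χ : (Ω ≃ₐ[F] Ω) → ZMod 7), InF F a → (∀ g h, χ (g * h) = χ g + χ h) → IsLocallyConstant χ →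
    cup 7 a χ ∈ Z2 (Ω ≃ₐ[F] Ω) Ωˣ

theorem quot_induced {M : Type u} [CommGroup M] (C : Subgroup M) (Γ : M →* M) (hC : ∀ c ∈ C, Γ c ∈ C) :
    ∃ (M' : Type u) (_ : CommGroup M') (π : M →* M') (Γ' : M' →* M'),
      (∀ x, π x = 1 ↔ x ∈ C) ∧ ∀ x, Γ' (π x) = π (Γ x) :=
  ⟨M ⧸ C, inferInstance, QuotientGroup.mk' C, QuotientGroup.map C C Γ (fun c hc => hC c hc),
    fun x => QuotientGroup.eq_one_iff x, fun _ => rfl⟩

/-- MAINC. -/
theorem mainc (hAdd : SymAddStatement.{u}) (hSt : SymSteinStatement.{u}) (hNo : SymNormStatement.{u})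
    (hKu : SymKumStatement.{u}) (hGa : SymGalStatement.{u}) (hTr : TrivCStatement.{u})
    (hDisc : DiscStatement.{u}) (hConj : ConjCStatement.{u}) (hRes : ConjResStatement.{u})
    (hOne : CupResZ.{u})
    (h1 : HeartStatement.{u} 1 1) (h2 : HeartStatement.{u} 6 2)
    (h3 : HeartStatement.{u} 2 3) (h6 : HeartStatement.{u} 3 6) : MainCStatement.{u} := by
  intro F Ω _ _ _ _ _ ζ hp x hx hS
  obtain ⟨γ, k, d, hkd, hγ, hgen⟩ := cases_gamma (F := F) hp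
  have hC := hConj (Ω ≃ₐ[F] Ω) Ωˣ (hDisc F Ω) (HZ F ζ) γ (HZ_normal hγ)
  have hΓ := fun f hf => mapH2_cls (HZ F ζ) (conjC (HZ F ζ) γ (HZ_normal hγ)) hC.1 hC.2 (f := f) hf
  generalize mapH2 (HZ F ζ) (conjC (HZ F ζ) γ (HZ_normal hγ)) hC.1 hC.2 = Γ at hΓ
  have hfix : ∀ y ∈ Z2 (Ω ≃ₐ[F] Ω) Ωˣ, Γ (cls (HZ F ζ) Ωˣ (fun g h : HZ F ζ => y g h)) =
      cls (HZ F ζ) Ωˣ (fun g h : HZ F ζ => y g h) := by
    intro y hy
    have hXZ := res_Z2 (HZ F ζ) hy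
    rw [hΓ _ hXZ, cls_eq_iff (hC.1 _ hXZ) hXZ]
    exact hRes (Ω ≃ₐ[F] Ω) Ωˣ (hDisc F Ω) (HZ F ζ) γ (HZ_normal hγ) y hy
  set S : Set (H2 (HZ F ζ) Ωˣ) := {s | ∃ (a : Ωˣ) (χ : (Ω ≃ₐ[F] Ω) → ZMod 7), InF F a ∧
        (∀ g h, χ (g * h) = χ g + χ h) ∧ IsLocallyConstant χ ∧
        s = cls (HZ F ζ) Ωˣ (cup 7 a (fun h : HZ F ζ => χ h))} with hSdef
  have hSfix : ∀ s ∈ S, Γ s = s := by
    rintro s ⟨a, χ, ha, hχ, hχc, rfl⟩
    exact hfix (cup 7 a χ) (hOne F Ω a χ ha hχ hχc)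
  have hCl : ∀ c ∈ Subgroup.closure S, Γ c ∈ Subgroup.closure S := by
    intro c hc
    induction hc using Subgroup.closure_induction with
    | mem s hs => rw [hSfix s hs]; exact Subgroup.subset_closure hs
    | one => rw [map_one]; exact one_mem _
    | mul a b _ _ iha ihb => rw [map_mul]; exact mul_mem iha ihb
    | inv a _ iha => rw [map_inv]; exact inv_mem iha
  obtain ⟨M', _, π, Γ', hπ, hΓ'⟩ := quot_induced (M := H2 (HZ F ζ) Ωˣ) (Subgroup.closure S) Γ hCl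
  have hpowk : ∀ i : ℕ, (γ ^ i) • ζ = ζ ^ (k ^ i) := by
    intro i
    induction i with
    | zero => simp
    | succ i ih => rw [pow_succ', mul_smul, ih, smul_pow', hγ, ← pow_mul, pow_succ']
  have hH : ∀ i : ℕ, ∀ h ∈ HZ F ζ, (γ ^ i)⁻¹ * h * γ ^ i ∈ HZ F ζ := fun i => HZ_normal (hpowk i)
  have hinj := hinj_of (F := F) hp hγ hkd
  have hnorm : ∀ g : Ω ≃ₐ[F] Ω, ∃! i : Fin d, g • ζ = (γ ^ (i : ℕ)) • ζ := by
    intro g
    obtain ⟨i, hi, he⟩ := hgen g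
    refine ⟨⟨i, hi⟩, he, ?_⟩
    rintro ⟨j, hj⟩ hj2
    exact Fin.ext (hinj j i hj hi (hj2.symm.trans he))
  obtain ⟨hZ, -, -, ha3⟩ := hAdd F Ω ζ hp
  have hcZ : ∀ c ∈ Z2 (HZ F ζ) Ωˣ, ∀ i : ℕ, conjC (HZ F ζ) (γ ^ i) (hH i) c ∈ Z2 (HZ F ζ) Ωˣ := by
    intro c hc i
    exact (hConj (Ω ≃ₐ[F] Ω) Ωˣ (hDisc F Ω) (HZ F ζ) (γ ^ i) (hH i)).1 c hc
  have htriv : ∀ f l : Ωˣ, InF F f → InL F ζ l →
      π (cls (HZ F ζ) Ωˣ (∏ i : Fin d, conjC (HZ F ζ) (γ ^ (i : ℕ)) (hH i) (cup 7 f (kum F ζ l)))) = 1 := by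
    intro f l hf hl
    have hfl : InL F ζ f := fun g _ => hf g
    have hfZ := hZ f l hfl hl
    obtain ⟨χ, hχ, hχc, hB⟩ := hTr F Ω ζ hp γ d hH hnorm f l hf hl
    have hχZ : cup 7 f (fun h : HZ F ζ => χ h) ∈ Z2 (HZ F ζ) Ωˣ :=
      res_Z2 (HZ F ζ) (hOne F Ω f χ hf hχ hχc)
    rw [(cls_eq_iff (prod_mem fun i _ => hcZ _ hfZ _) hχZ).mpr hB]
    rw [hπ]
    exact Subgroup.subset_closure ⟨f, χ, hf, hχ, hχc, rfl⟩
  have hsym := symAxQ hAdd hSt hNo hKu hGa hDisc hConj ζ hp γ k d hγ hgen Γ hΓ M' π Γ' hΓ' hH htriv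
  have hnz : NormZero F ζ d (Q := Additive M')
      (fun a b => Additive.ofMul (π (symb F ζ a b))) (endA Γ') := by
    rcases hkd with ⟨rfl, rfl⟩ | ⟨rfl, rfl⟩ | ⟨rfl, rfl⟩ | ⟨rfl, rfl⟩
    · exact h1 F Ω ζ γ _ _ _ hsym
    · exact h2 F Ω ζ γ _ _ _ hsym
    · exact h3 F Ω ζ γ _ _ _ hsym
    · exact h6 F Ω ζ γ _ _ _ hsym
  have hco : Nat.Coprime d 7 := by
    rcases hkd with ⟨rfl, rfl⟩ | ⟨rfl, rfl⟩ | ⟨rfl, rfl⟩ | ⟨rfl, rfl⟩ <;> decide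
  have hfin := kill (M := M')
    (π '' {s | ∃ a b : Ωˣ, InL F ζ a ∧ InL F ζ b ∧ s = symb F ζ a b})
    d hco Γ' ?_ ?_ (π (cls (HZ F ζ) Ωˣ (fun g h : HZ F ζ => x g h))) ?_ ?_
  · rwa [hπ] at hfin
  · rintro s ⟨_, ⟨a, b, ha, hb, rfl⟩, rfl⟩
    exact hnz a b ha hb
  · rintro s ⟨_, ⟨a, b, ha, hb, rfl⟩, rfl⟩
    rw [← map_pow, ha3 a b ha hb, map_one]
  · rw [← MonoidHom.map_closure]
    exact Subgroup.mem_map_of_mem _ hS
  · rw [hΓ', hfix x hx]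

end BR7.H50
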